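import Mathlib

/-!
# HFO/Base : Jacobi symbols with integer denominators, completely multiplicative functions
-/

set_option autoImplicit false

namespace Pool.Agent.HFO

/-- Jacobi symbol with an integer denominator -/
def JJ (a n : ℤ) : ℤ := jacobiSym a n.natAbs

theorem JJ_mul_left (a b n : ℤ) : JJ (a * b) n = JJ a n * JJ b n :=
  jacobiSym.mul_left a b n.natAbs

theorem JJ_mul_right (a : ℤ) {m n : ℤ} (hm : m ≠ 0) (hn : n ≠ 0) :
    JJ a (m * n) = JJ a m * JJ a n := by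
  unfold JJ
  rw [Int.natAbs_mul]
  exact jacobiSym.mul_right' a (Int.natAbs_ne_zero.mpr hm) (Int.natAbs_ne_zero.mpr hn)

theorem JJ_congr {a b n : ℤ} (h : n ∣ a - b) : JJ a n = JJ b n := by
  unfold JJ
  apply jacobiSym.mod_left'
  have h1 : ((n.natAbs : ℕ) : ℤ) ∣ a - b := Int.natAbs_dvd.mpr h
  exact Int.ModEq.symm ((Int.modEq_iff_dvd).mpr h1)

theorem JJ_pm {a n : ℤ} (h : IsCoprime a n) : JJ a n = 1 ∨ JJ a n = -1 := by
  unfold JJ
  apply jacobiSym.eq_one_or_neg_one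
  have h1 := Int.isCoprime_iff_gcd_eq_one.mp h
  rw [← h1]
  simp only [Int.gcd, Int.natAbs_natCast]

theorem JJ_mulself {a n : ℤ} (h : IsCoprime a n) : JJ a n * JJ a n = 1 := by
  rcases JJ_pm h with h | h <;> rw [h] <;> norm_num

theorem JJ_sq {a n : ℤ} (h : IsCoprime a n) : JJ (a ^ 2) n = 1 := by
  rw [pow_two, JJ_mul_left, JJ_mulself h]

theorem JJ_sq_mul {a b n : ℤ} (h : IsCoprime a n) : JJ (a ^ 2 * b) n = JJ b n := by
  rw [JJ_mul_left, JJ_sq h, one_mul]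

theorem JJ_one_left (n : ℤ) : JJ 1 n = 1 := jacobiSym.one_left _

theorem JJ_one_right (a : ℤ) : JJ a 1 = 1 := jacobiSym.one_right _

theorem JJ_neg_right (a n : ℤ) : JJ a (-n) = JJ a n := by
  unfold JJ
  rw [Int.natAbs_neg]

theorem JJ_negone {n : ℤ} (hn : 0 < n) (ho : n % 2 = 1) :
    JJ (-1) n = if n % 4 = 1 then 1 else -1 := by
  unfold JJ
  obtain ⟨m, rfl⟩ := Int.eq_ofNat_of_zero_le hn.le
  have hm : Odd m := by
    rw [Nat.odd_iff]; omega
  rw [Int.natAbs_natCast, jacobiSym.at_neg_one hm]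
  have h4 : m % 4 = 1 ∨ m % 4 = 3 := by
    have := Nat.odd_iff.mp hm
    omega
  rcases h4 with h | h
  · rw [ZMod.χ₄_nat_one_mod_four h, if_pos]; omega
  · rw [ZMod.χ₄_nat_three_mod_four h, if_neg]; omega

theorem JJ_two {n : ℤ} (hn : 0 < n) (ho : n % 2 = 1) :
    JJ 2 n = if n % 8 = 1 ∨ n % 8 = 7 then 1 else -1 := by
  unfold JJ
  obtain ⟨m, rfl⟩ := Int.eq_ofNat_of_zero_le hn.le
  have hm : Odd m := by
    rw [Nat.odd_iff]; omega
  rw [Int.natAbs_natCast, jacobiSym.at_two hm, ZMod.χ₈_nat_eq_if_mod_eight]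
  have h2 := Nat.odd_iff.mp hm
  rw [if_neg (by omega)]
  by_cases h : m % 8 = 1 ∨ m % 8 = 7
  · rw [if_pos h, if_pos (by omega)]
  · rw [if_neg h, if_neg (by omega)]

theorem JJ_negone_one {n : ℤ} (hn : 0 < n) (h4 : n % 4 = 1) : JJ (-1) n = 1 := by
  rw [JJ_negone hn (by omega), if_pos h4]

theorem JJ_two_one {n : ℤ} (hn : 0 < n) (h8 : n % 8 = 1) : JJ 2 n = 1 := by
  rw [JJ_two hn (by omega), if_pos (Or.inl h8)]

/-- reciprocity, denominator `1` modulo `4` and positive, numerator odd of any sign -/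
theorem JJ_recip {a n : ℤ} (ha : a % 2 = 1) (hn : 0 < n) (hn4 : n % 4 = 1) :
    JJ a n = JJ n a := by
  have key : ∀ b : ℕ, Odd b → JJ (b : ℤ) n = JJ n (b : ℤ) := by
    intro b hb
    unfold JJ
    obtain ⟨m, rfl⟩ := Int.eq_ofNat_of_zero_le hn.le
    rw [Int.natAbs_natCast, Int.natAbs_natCast]
    exact jacobiSym.quadratic_reciprocity_one_mod_four' hb (by omega)
  rcases Int.natAbs_eq a with h | h
  · rw [h]
    exact key _ (by rw [Nat.odd_iff]; omega)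
  · rw [h, JJ_neg_right, ← key _ (by rw [Nat.odd_iff]; omega), neg_eq_neg_one_mul, JJ_mul_left,
      JJ_negone_one hn hn4, one_mul]

/-- completely multiplicative function with given values at the primes -/
def CC (c : ℕ → ℤ) (n : ℤ) : ℤ := (n.natAbs.primeFactorsList.map c).prod

theorem CC_mul (c : ℕ → ℤ) {m n : ℤ} (hm : m ≠ 0) (hn : n ≠ 0) :
    CC c (m * n) = CC c m * CC c n := by
  unfold CC
  rw [Int.natAbs_mul]
  have h := Nat.perm_primeFactorsList_mul (Int.natAbs_ne_zero.mpr hm) (Int.natAbs_ne_zero.mpr hn)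
  rw [(h.map c).prod_eq, List.map_append, List.prod_append]

theorem CC_congr {c c' : ℕ → ℤ} {n : ℤ}
    (h : ∀ p : ℕ, p.Prime → (p : ℤ) ∣ n → c p = c' p) : CC c n = CC c' n := by
  unfold CC
  congr 1
  apply List.map_congr_left
  intro p hp
  exact h p (Nat.prime_of_mem_primeFactorsList hp)
    (Int.natCast_dvd.mpr (Nat.dvd_of_mem_primeFactorsList hp))

theorem CC_mul_fun (c c' : ℕ → ℤ) (n : ℤ) :
    CC (fun p => c p * c' p) n = CC c n * CC c' n := by
  unfold CC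
  rw [List.prod_map_mul]

theorem CC_JJ (a n : ℤ) : CC (fun p => JJ a p) n = JJ a n := by
  unfold CC JJ jacobiSym
  rw [← List.pmap_eq_map (p := Nat.Prime) (H := fun p hp => Nat.prime_of_mem_primeFactorsList hp)]
  congr 1
  apply List.pmap_congr_left
  intro p hp h1 h2
  have : Fact p.Prime := ⟨h1⟩
  rw [Int.natAbs_natCast]
  exact (jacobiSym.legendreSym.to_jacobiSym p a).symm

theorem CC_eq_JJ {c : ℕ → ℤ} {a n : ℤ}
    (h : ∀ p : ℕ, p.Prime → (p : ℤ) ∣ n → c p = JJ a p) : CC c n = JJ a n := by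
  rw [← CC_JJ]
  exact CC_congr h

theorem CC_one {c : ℕ → ℤ} {n : ℤ} (h : ∀ p : ℕ, p.Prime → (p : ℤ) ∣ n → c p = 1) :
    CC c n = 1 := by
  rw [CC_congr (c' := fun _ => 1) h]
  unfold CC
  simp

theorem CC_mulself {c : ℕ → ℤ} {n : ℤ}
    (h : ∀ p : ℕ, p.Prime → (p : ℤ) ∣ n → c p = 1 ∨ c p = -1) : CC c n * CC c n = 1 := by
  rw [← CC_mul_fun]
  apply CC_one
  intro p hp hd
  rcases h p hp hd with h | h <;> rw [h] <;> norm_num

/-- a prime not dividing is coprime -/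
theorem cop_of_not_dvd {p : ℕ} (hp : p.Prime) {a : ℤ} (h : ¬ (p : ℤ) ∣ a) :
    IsCoprime a (p : ℤ) := by
  have h1 : Prime (p : ℤ) := Nat.prime_iff_prime_int.mp hp
  exact ((Prime.coprime_iff_not_dvd h1).mpr h).symm

/-- coprimality of integers from the absence of common primes -/
theorem cop_of_primes {a b : ℤ} (h : ∀ p : ℕ, p.Prime → (p : ℤ) ∣ a → (p : ℤ) ∣ b → False) :
    IsCoprime a b := by
  rw [Int.isCoprime_iff_gcd_eq_one]
  by_contra hne
  obtain ⟨p, hp, hd⟩ := Nat.exists_prime_and_dvd hne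
  exact h p hp ((Int.natCast_dvd_natCast.mpr hd).trans (Int.gcd_dvd_left ..))
    ((Int.natCast_dvd_natCast.mpr hd).trans (Int.gcd_dvd_right ..))

/-- values at a prime, `±1` for units -/
theorem JJp_pm {p : ℕ} (hp : p.Prime) {a : ℤ} (h : ¬ (p : ℤ) ∣ a) :
    JJ a p = 1 ∨ JJ a p = -1 := JJ_pm (cop_of_not_dvd hp h)

theorem JJp_mulself {p : ℕ} (hp : p.Prime) {a : ℤ} (h : ¬ (p : ℤ) ∣ a) :
    JJ a p * JJ a p = 1 := JJ_mulself (cop_of_not_dvd hp h)

/-- if `a = r²` modulo `p` and `a` is a unit then `J(a|p) = 1` -/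
theorem JJp_of_sq {p : ℕ} (hp : p.Prime) {a r : ℤ} (h : (p : ℤ) ∣ a - r ^ 2)
    (ha : ¬ (p : ℤ) ∣ a) : JJ a p = 1 := by
  rw [JJ_congr h]
  apply JJ_sq
  apply cop_of_not_dvd hp
  intro hr
  apply ha
  have : a = (a - r ^ 2) + r ^ 2 := by ring
  rw [this]
  exact dvd_add h (dvd_pow hr two_ne_zero)

/-- if `a b = r²` modulo `p`, with `a`, `b` units, then `J(a|p) = J(b|p)` -/
theorem JJp_eq_of_sq {p : ℕ} (hp : p.Prime) {a b r : ℤ} (h : (p : ℤ) ∣ a * b - r ^ 2)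
    (ha : ¬ (p : ℤ) ∣ a) (hb : ¬ (p : ℤ) ∣ b) : JJ a p = JJ b p := by
  have h1 : Prime (p : ℤ) := Nat.prime_iff_prime_int.mp hp
  have h2 : ¬ (p : ℤ) ∣ a * b := by
    intro hh
    rcases h1.dvd_or_dvd hh with h | h
    · exact ha h
    · exact hb h
  have h3 := JJp_of_sq hp h h2
  rw [JJ_mul_left] at h3
  rcases JJp_pm hp ha with ha | ha <;> rcases JJp_pm hp hb with hb | hb <;> rw [ha, hb] at h3 ⊢ <;>
    norm_num at h3

end Pool.Agent.HFO
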