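import Pool.Agent.HFO.Kay

/-!
# HFO/Quartic : Lemma Q of note 2108
-/

set_option autoImplicit false

namespace Pool.Agent.HFO

theorem odd_mul_iff {a b : ℤ} (h : (a * b) % 2 = 1) : a % 2 = 1 ∧ b % 2 = 1 := by
  rcases Int.emod_two_eq_zero_or_one a with ha | ha <;>
  rcases Int.emod_two_eq_zero_or_one b with hb | hb <;>
  rw [Int.mul_emod, ha, hb] at h <;> norm_num at h
  exact ⟨ha, hb⟩

theorem sq_mod_eight {m : ℤ} (h : m % 2 = 1) : m ^ 2 % 8 = 1 := by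
  have h1 : m % 8 = 1 ∨ m % 8 = 3 ∨ m % 8 = 5 ∨ m % 8 = 7 := by omega
  rw [pow_two, Int.mul_emod]
  rcases h1 with h | h | h | h <;> rw [h] <;> norm_num

theorem cop_two {m : ℤ} (h : m % 2 = 1) : IsCoprime 2 m :=
  ⟨-(m / 2), 1, by omega⟩

/-- `J(d|c²+d²) = 1` -/
theorem JJ_leg {c d f : ℤ} (hcd : IsCoprime c d) (hf : f = c ^ 2 + d ^ 2) (h8 : f % 8 = 1) :
    JJ d f = 1 := by
  have hf0 : 0 < f := by
    have h1 : 0 ≤ f := by rw [hf]; positivity
    omega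
  by_cases hd : d = 0
  · subst hd
    have h1 : IsUnit c := isCoprime_zero_right.mp hcd
    have h2 : f = 1 := by
      rw [hf]
      rcases Int.isUnit_iff.mp h1 with h | h <;> rw [h] <;> norm_num
    rw [h2, JJ_one_right]
  · obtain ⟨k, d1, hd1, he⟩ := Nat.exists_eq_two_pow_mul_odd (n := d.natAbs)
      (Int.natAbs_ne_zero.mpr hd)
    have hJ2 : JJ 2 f = 1 := JJ_two_one hf0 h8
    -- `d = 2^k d2`
    obtain ⟨d2, hd2, hdd⟩ : ∃ d2 : ℤ, d2 % 2 = 1 ∧ d = 2 ^ k * d2 := by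
      rcases Int.natAbs_eq d with h | h
      · refine ⟨d1, ?_, ?_⟩
        · have := Nat.odd_iff.mp hd1
          omega
        · rw [h, he]; push_cast; ring
      · refine ⟨-d1, ?_, ?_⟩
        · have := Nat.odd_iff.mp hd1
          omega
        · rw [h, he]; push_cast; ring
    have hJk : ∀ k : ℕ, JJ (2 ^ k) f = 1 := by
      intro k
      induction k with
      | zero => rw [pow_zero, JJ_one_left]
      | succ k ih => rw [pow_succ, JJ_mul_left, ih, hJ2, one_mul]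
    rw [hdd, JJ_mul_left, hJk, one_mul, JJ_recip hd2 hf0 (by omega)]
    have hc2 : IsCoprime c d2 := by
      apply hcd.of_isCoprime_of_dvd_right
      rw [hdd]
      exact Dvd.intro_left _ rfl
    rw [JJ_congr (b := c ^ 2), JJ_sq hc2]
    rw [hf, hdd]
    exact ⟨2 ^ k * (2 ^ k * d2), by ring⟩

theorem quartic {g t x c0 d0 e f0 : ℤ} (hx : 0 < x) (hxo : x % 2 = 1) (ht : t % 2 = 0)
    (ht0 : 0 < t) (hg : 0 < g) (hgo : g % 2 = 1) (hxt : IsCoprime x (2 * t)) (he : 0 < e)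
    (hcd : IsCoprime c0 d0) (hf0 : f0 = c0 ^ 2 + d0 ^ 2)
    (hf : e ^ 2 * f0 = x ^ 2 + (2 * g * t ^ 2) ^ 2 + 8 * t ^ 2)
    (hk : 0 < e * (c0 - d0) + 4 * t) :
    JJ (((x - 2 * g * t ^ 2) * d0 - (x + 2 * g * t ^ 2) * c0) * d0) f0 = JJ 2 x * JJ (-1) e := by
  have hpr : ∀ p : ℕ, p.Prime → Prime (p : ℤ) := fun p hp => Nat.prime_iff_prime_int.mp hp
  obtain ⟨T, hT⟩ : ∃ T : ℤ, T = 2 * g * t ^ 2 := ⟨_, rfl⟩
  obtain ⟨t', ht'⟩ := Int.dvd_of_emod_eq_zero ht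
  have hT8 : T = 8 * (g * t' ^ 2) := by rw [hT, ht']; ring
  have hTT : ∃ T' : ℤ, T = 8 * T' := ⟨_, hT8⟩
  rw [← hT] at hf ⊢
  obtain ⟨n, hn⟩ : ∃ n : ℤ, n = x ^ 2 + T ^ 2 := ⟨_, rfl⟩
  have hx8 : x ^ 2 % 8 = 1 := sq_mod_eight hxo
  have hn8 : n % 8 = 1 := by
    obtain ⟨T', hT'⟩ := hTT
    have : n = x ^ 2 + 8 * (8 * T' ^ 2) := by rw [hn, hT']; ring
    omega
  have hn0 : 0 < n := by rw [hn]; positivity
  have hfn : e ^ 2 * f0 = n + 8 * t ^ 2 := by rw [hf, hn]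
  have hf8 : (e ^ 2 * f0) % 8 = 1 := by
    rw [hfn]
    omega
  have heo : e % 2 = 1 := by
    have h1 : (e * (e * f0)) % 2 = 1 := by
      have : e * (e * f0) = e ^ 2 * f0 := by ring
      rw [this]; omega
    exact (odd_mul_iff h1).1
  have hf0o : f0 % 2 = 1 := by
    have h1 : (e ^ 2 * f0) % 2 = 1 := by omega
    exact (odd_mul_iff h1).2
  have hf08 : f0 % 8 = 1 := by
    rw [Int.mul_emod, sq_mod_eight heo, one_mul, Int.emod_emod] at hf8
    exact hf8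
  have hf0p : 0 < f0 := by
    have : 0 ≤ f0 := by rw [hf0]; positivity
    omega
  -- `l`
  obtain ⟨l, hl⟩ : ∃ l : ℤ, l = Int.gcd x T := ⟨_, rfl⟩
  have hl0 : 0 < l := by
    rw [hl]
    exact_mod_cast Int.gcd_pos_of_ne_zero_left T hx.ne'
  obtain ⟨x0, hx0⟩ : l ∣ x := by rw [hl]; exact Int.gcd_dvd_left ..
  obtain ⟨T0, hT0⟩ : l ∣ T := by rw [hl]; exact Int.gcd_dvd_right ..
  have hcop : IsCoprime x0 T0 := by
    rw [Int.isCoprime_iff_gcd_eq_one]
    have h1 : (Int.gcd x T : ℤ) = l * Int.gcd x0 T0 := by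
      rw [hx0, hT0, Int.gcd_mul_left]
      push_cast
      rw [abs_of_pos hl0]
    rw [← hl] at h1
    have h2 : (Int.gcd x0 T0 : ℤ) = 1 := by
      have h3 : l * (Int.gcd x0 T0 : ℤ) = l * 1 := by rw [← h1, mul_one]
      exact mul_left_cancel₀ hl0.ne' h3
    exact_mod_cast h2
  have hlo : l % 2 = 1 := by
    rw [hx0] at hxo
    exact (odd_mul_iff hxo).1
  have hx0o : x0 % 2 = 1 := by
    rw [hx0] at hxo
    exact (odd_mul_iff hxo).2
  have hT0e : T0 % 2 = 0 := by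
    rcases Int.emod_two_eq_zero_or_one T0 with h | h
    · exact h
    · exfalso
      have h1 : (l * T0) % 2 = 1 := by rw [Int.mul_emod, hlo, h]; norm_num
      rw [← hT0] at h1
      omega
  obtain ⟨n0, hn0d⟩ : ∃ n0 : ℤ, n0 = x0 ^ 2 + T0 ^ 2 := ⟨_, rfl⟩
  have hnl : n = l ^ 2 * n0 := by rw [hn, hn0d, hx0, hT0]; ring
  have hn08 : n0 % 8 = 1 := by
    have h1 := hn8
    rw [hnl, Int.mul_emod, sq_mod_eight hlo, one_mul, Int.emod_emod] at h1
    exact h1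
  have hn0p : 0 < n0 := by
    have : 0 ≤ n0 := by rw [hn0d]; positivity
    omega
  have hxp : ∀ p : ℕ, p.Prime → (p : ℤ) ∣ x → ¬ (p : ℤ) ∣ 2 * t := by
    intro p hp h1 h2
    exact (hpr p hp).not_isUnit (hxt.isUnit_of_dvd' h1 h2)
  -- primes of `n` do not divide `2 t`
  have hnp : ∀ p : ℕ, p.Prime → (p : ℤ) ∣ n → ¬ (p : ℤ) ∣ 2 * t := by
    intro p hp h1 h2
    apply hxp p hp _ h2
    have h3 : (p : ℤ) ∣ x ^ 2 := by
      have : x ^ 2 = n - (2 * t) * (g * t * T) := by rw [hn]; linear_combination (-T) * hT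
      rw [this]
      exact dvd_sub h1 (dvd_mul_of_dvd_left h2 _)
    exact (hpr p hp).dvd_of_dvd_pow h3
  have hnt : IsCoprime n (2 * t) := cop_of_primes fun p hp h1 h2 => hnp p hp h1 h2
  have h8t : ∀ p : ℕ, p.Prime → (p : ℤ) ∣ 8 * t ^ 2 → (p : ℤ) ∣ 2 * t := by
    intro p hp h
    have h1 : (p : ℤ) ∣ (2 * t) ^ 3 := by
      have : (2 * t) ^ 3 = 8 * t ^ 2 * t := by ring
      rw [this]
      exact dvd_mul_of_dvd_left h _
    exact (hpr p hp).dvd_of_dvd_pow h1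
  have hnf : ∀ p : ℕ, p.Prime → (p : ℤ) ∣ n → ¬ (p : ℤ) ∣ e ^ 2 * f0 := by
    intro p hp h1 h2
    apply hnp p hp h1
    apply h8t p hp
    have : 8 * t ^ 2 = e ^ 2 * f0 - n := by rw [hfn]; ring
    rw [this]
    exact dvd_sub h2 h1
  have hn0n : ∀ p : ℕ, (p : ℤ) ∣ n0 → (p : ℤ) ∣ n := by
    intro p h
    rw [hnl]
    exact dvd_mul_of_dvd_right h _
  have hln : ∀ p : ℕ, (p : ℤ) ∣ l → (p : ℤ) ∣ n := by
    intro p h
    rw [hnl]
    exact dvd_mul_of_dvd_left (dvd_pow h two_ne_zero) _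
  have hef : ∀ p : ℕ, (p : ℤ) ∣ e → (p : ℤ) ∣ e ^ 2 * f0 := by
    intro p h
    exact dvd_mul_of_dvd_left (dvd_pow h two_ne_zero) _
  have hf0f : ∀ p : ℕ, (p : ℤ) ∣ f0 → (p : ℤ) ∣ e ^ 2 * f0 := by
    intro p h
    exact dvd_mul_of_dvd_right h _
  have hp2n : ∀ p : ℕ, p.Prime → (p : ℤ) ∣ n → ¬ (p : ℤ) ∣ 2 :=
    fun p hp h1 h2 => hnp p hp h1 (dvd_mul_of_dvd_left h2 _)
  have hpodd : ∀ (p : ℕ) (m : ℤ), p.Prime → m % 2 = 1 → (p : ℤ) ∣ m → ¬ (p : ℤ) ∣ 2 := by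
    intro p m hp hm h1 h2
    exact (hpr p hp).not_isUnit ((cop_two hm).isUnit_of_dvd' h2 h1)
  -- `W0`, `W1`
  obtain ⟨W0, hW0⟩ : ∃ W0 : ℤ, W0 = x0 * (d0 - c0) - T0 * (c0 + d0) := ⟨_, rfl⟩
  obtain ⟨W1, hW1⟩ : ∃ W1 : ℤ, W1 = x0 * (c0 + d0) + T0 * (d0 - c0) := ⟨_, rfl⟩
  have hlW : (x - T) * d0 - (x + T) * c0 = l * W0 := by rw [hW0, hx0, hT0]; ring
  have hW2 : W0 ^ 2 + W1 ^ 2 = 2 * n0 * f0 := by rw [hW0, hW1, hn0d, hf0]; ring
  have hcdo : (c0 + d0) % 2 = 1 := by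
    have h1 : ((c0 + d0) * (c0 + d0)) % 2 = 1 := by
      have : (c0 + d0) * (c0 + d0) = f0 + 2 * (c0 * d0) := by rw [hf0]; ring
      omega
    exact (odd_mul_iff h1).1
  have hcdo' : (d0 - c0) % 2 = 1 := by omega
  have hW0o : W0 % 2 = 1 := by
    obtain ⟨T1, hT1⟩ := Int.dvd_of_emod_eq_zero hT0e
    have h1 : (x0 * (d0 - c0)) % 2 = 1 := by rw [Int.mul_emod, hx0o, hcdo']; norm_num
    have h2 : W0 = x0 * (d0 - c0) - 2 * (T1 * (c0 + d0)) := by rw [hW0, hT1]; ring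
    omega
  have hW01 : ∀ p : ℕ, p.Prime → (p : ℤ) ∣ W0 → (p : ℤ) ∣ W1 → False := by
    intro p hp h1 h2
    have hp2 : ¬ (p : ℤ) ∣ 2 := hpodd p W0 hp hW0o h1
    have h3 : (p : ℤ) ∣ n0 * (d0 - c0) := by
      have : n0 * (d0 - c0) = x0 * W0 + T0 * W1 := by rw [hn0d, hW0, hW1]; ring
      rw [this]
      exact dvd_add (dvd_mul_of_dvd_right h1 _) (dvd_mul_of_dvd_right h2 _)
    have h4 : (p : ℤ) ∣ n0 * (c0 + d0) := by
      have : n0 * (c0 + d0) = x0 * W1 - T0 * W0 := by rw [hn0d, hW0, hW1]; ring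
      rw [this]
      exact dvd_sub (dvd_mul_of_dvd_right h2 _) (dvd_mul_of_dvd_right h1 _)
    have h5 : (p : ℤ) ∣ 2 * (x0 * f0) := by
      have : 2 * (x0 * f0) = (d0 - c0) * W0 + (c0 + d0) * W1 := by rw [hf0, hW0, hW1]; ring
      rw [this]
      exact dvd_add (dvd_mul_of_dvd_right h1 _) (dvd_mul_of_dvd_right h2 _)
    have h6 : (p : ℤ) ∣ 2 * (T0 * f0) := by
      have : 2 * (T0 * f0) = (d0 - c0) * W1 - (c0 + d0) * W0 := by rw [hf0, hW0, hW1]; ring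
      rw [this]
      exact dvd_sub (dvd_mul_of_dvd_right h2 _) (dvd_mul_of_dvd_right h1 _)
    have h7 : (p : ℤ) ∣ f0 := by
      have h5' := ((hpr p hp).dvd_or_dvd h5).resolve_left hp2
      have h6' := ((hpr p hp).dvd_or_dvd h6).resolve_left hp2
      rcases (hpr p hp).dvd_or_dvd h5' with h | h
      · rcases (hpr p hp).dvd_or_dvd h6' with h' | h'
        · exact absurd (hcop.isUnit_of_dvd' h h') (hpr p hp).not_isUnit
        · exact h'
      · exact h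
    have h8 : (p : ℤ) ∣ n0 := by
      rcases (hpr p hp).dvd_or_dvd h3 with h | h
      · exact h
      · rcases (hpr p hp).dvd_or_dvd h4 with h' | h'
        · exact h'
        · exfalso
          have e1 : (p : ℤ) ∣ 2 * d0 := by
            have : 2 * d0 = (d0 - c0) + (c0 + d0) := by ring
            rw [this]; exact dvd_add h h'
          have e2 : (p : ℤ) ∣ 2 * c0 := by
            have : 2 * c0 = (c0 + d0) - (d0 - c0) := by ring
            rw [this]; exact dvd_sub h' h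
          have e1' := ((hpr p hp).dvd_or_dvd e1).resolve_left hp2
          have e2' := ((hpr p hp).dvd_or_dvd e2).resolve_left hp2
          exact (hpr p hp).not_isUnit (hcd.isUnit_of_dvd' e2' e1')
    exact hnf p hp (hn0n p h8) (hf0f p h7)
  have hW0n : ∀ p : ℕ, p.Prime → (p : ℤ) ∣ W0 → ¬ (p : ℤ) ∣ n0 := by
    intro p hp h1 h2
    have hT0p : ¬ (p : ℤ) ∣ T0 := by
      intro h
      have h3 : (p : ℤ) ∣ x0 ^ 2 := by
        have : x0 ^ 2 = n0 - T0 ^ 2 := by rw [hn0d]; ring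
        rw [this]
        exact dvd_sub h2 (dvd_pow h two_ne_zero)
      exact (hpr p hp).not_isUnit (hcop.isUnit_of_dvd' ((hpr p hp).dvd_of_dvd_pow h3) h)
    have h3 : (p : ℤ) ∣ T0 * W1 := by
      have : T0 * W1 = n0 * (d0 - c0) - x0 * W0 := by rw [hn0d, hW0, hW1]; ring
      rw [this]
      exact dvd_sub (dvd_mul_of_dvd_left h2 _) (dvd_mul_of_dvd_right h1 _)
    rcases (hpr p hp).dvd_or_dvd h3 with h | h
    · exact hT0p h
    · exact hW01 p hp h1 h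
  have hW0f : ∀ p : ℕ, p.Prime → (p : ℤ) ∣ W0 → ¬ (p : ℤ) ∣ f0 := by
    intro p hp h1 h2
    have hp2 : ¬ (p : ℤ) ∣ 2 := hpodd p W0 hp hW0o h1
    have h3 : (p : ℤ) ∣ W1 ^ 2 := by
      have : W1 ^ 2 = 2 * n0 * f0 - W0 ^ 2 := by rw [← hW2]; ring
      rw [this]
      exact dvd_sub (dvd_mul_of_dvd_right h2 _) (dvd_pow h1 two_ne_zero)
    exact hW01 p hp h1 ((hpr p hp).dvd_of_dvd_pow h3)
  -- `D`, `k`
  obtain ⟨D, hD⟩ : ∃ D : ℤ, D = e * (c0 + d0) := ⟨_, rfl⟩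
  obtain ⟨E, hE⟩ : ∃ E : ℤ, E = e * (c0 - d0) := ⟨_, rfl⟩
  obtain ⟨k, hkd⟩ : ∃ k : ℤ, k = E + 4 * t := ⟨_, rfl⟩
  have hDE : D ^ 2 + E ^ 2 - 16 * t ^ 2 = 2 * n := by
    have h1 : D ^ 2 + E ^ 2 = 2 * (e ^ 2 * f0) := by rw [hD, hE, hf0]; ring
    rw [h1, hfn]; ring
  have heq : 2 * n = D ^ 2 + k * (k - 8 * t) := by rw [← hDE, hkd]; ring
  have hk0 : 0 < k := by rw [hkd, hE]; exact hk
  have hEo : E % 2 = 1 := by
    rw [hE, Int.mul_emod, heo]
    have : (c0 - d0) % 2 = 1 := by omega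
    rw [this]; norm_num
  have hko : k % 2 = 1 := by omega
  have heW : e * W0 = -(x0 * E + T0 * D) := by rw [hW0, hE, hD]; ring
  -- `K`
  classical
  obtain ⟨K, hK⟩ : ∃ K : ℕ → ℤ, K = fun p : ℕ => if (p : ℤ) ∣ k then JJ (2 * t) p else JJ k p :=
    ⟨_, rfl⟩
  have hKn : CC K n = JJ 2 k := by
    apply kay (D := D) (k := k) (t := t) (r := x) (s := T) K hn0 hn8 hk0 hko hnt heq hn
    · intro p hp h1 h2
      rw [hK]
      simp only [h2, if_false]
    · intro p hp h1 h2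
      rw [hK]
      simp only [h2, if_true]
  have hKl : CC K l * CC K l = 1 := by
    apply CC_mulself
    intro p hp h1
    rw [hK]
    by_cases h2 : (p : ℤ) ∣ k
    · simp only [h2, if_true]
      exact JJp_pm hp (hnp p hp (hln p h1))
    · simp only [h2, if_false]
      exact JJp_pm hp h2
  have hKn0 : CC K n = CC K n0 := by
    rw [hnl, pow_two, CC_mul K (mul_ne_zero hl0.ne' hl0.ne') hn0p.ne', CC_mul K hl0.ne' hl0.ne',
      hKl, one_mul]
  -- the values at the primes of `n0`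
  have hKW : CC K n0 = JJ (e * W0 * T0) n0 := by
    apply CC_eq_JJ
    intro p hp h1
    have hpn := hn0n p h1
    have hp2 := hp2n p hp hpn
    have hpe : ¬ (p : ℤ) ∣ e := fun h => hnf p hp hpn (hef p h)
    have hpW : ¬ (p : ℤ) ∣ W0 := fun h => hW0n p hp h h1
    have hpT : ¬ (p : ℤ) ∣ T0 := by
      intro h
      have h3 : (p : ℤ) ∣ x0 ^ 2 := by
        have : x0 ^ 2 = n0 - T0 ^ 2 := by rw [hn0d]; ring
        rw [this]
        exact dvd_sub h1 (dvd_pow h two_ne_zero)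
      exact (hpr p hp).not_isUnit (hcop.isUnit_of_dvd' ((hpr p hp).dvd_of_dvd_pow h3) h)
    have hpeWT : ¬ (p : ℤ) ∣ e * W0 * T0 := by
      intro h
      rcases (hpr p hp).dvd_or_dvd h with h | h
      · rcases (hpr p hp).dvd_or_dvd h with h | h
        · exact hpe h
        · exact hpW h
      · exact hpT h
    rw [hK]
    by_cases h2 : (p : ℤ) ∣ k
    · simp only [h2, if_true]
      symm
      have h2t := hnp p hp hpn
      apply JJp_eq_of_sq hp (r := 2 * t * (x0 + T0)) _ hpeWT h2t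
      have hpD : (p : ℤ) ∣ D := by
        have : (p : ℤ) ∣ D ^ 2 := by
          have : D ^ 2 = 2 * n - k * (k - 8 * t) := by rw [heq]; ring
          rw [this]
          exact dvd_sub (dvd_mul_of_dvd_right hpn _) (dvd_mul_of_dvd_left h2 _)
        exact (hpr p hp).dvd_of_dvd_pow this
      have : e * W0 * T0 * (2 * t) - (2 * t * (x0 + T0)) ^ 2
          = k * (-(x0 * T0 * 2 * t)) + D * (-(T0 ^ 2 * 2 * t)) - 4 * t ^ 2 * n0 := by
        rw [heW, hkd, hn0d]; ring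
      rw [this]
      exact dvd_sub (dvd_add (dvd_mul_of_dvd_left h2 _) (dvd_mul_of_dvd_left hpD _))
        (dvd_mul_of_dvd_right h1 _)
    · simp only [h2, if_false]
      symm
      apply JJp_eq_of_sq' hp (c := 2 * T0) (r := (T0 - x0) * (T0 * k - x0 * D)) _ hpeWT h2
      · intro h
        rcases (hpr p hp).dvd_or_dvd h with h | h
        · exact hp2 h
        · exact hpT h
      · have hS : D ^ 2 + E ^ 2 - 16 * t ^ 2 = n0 * (2 * l ^ 2) := by rw [hDE, hnl]; ring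
        have : (2 * T0) ^ 2 * (e * W0 * T0 * k) - ((T0 - x0) * (T0 * k - x0 * D)) ^ 2
            = -(n0 * (4 * T0 ^ 2 * k * D + 2 * T0 * k * (T0 * E - x0 * D) + n0 * D ^ 2
                - T0 ^ 2 * (D ^ 2 + E ^ 2 - 16 * t ^ 2) - 2 * x0 * T0 * D ^ 2)
              + 2 * x0 * T0 ^ 3 * (D ^ 2 + E ^ 2 - 16 * t ^ 2)) := by
          have h3 : (2 * T0) ^ 2 * (e * W0 * T0 * k) = 4 * T0 ^ 3 * k * (e * W0) := by ring
          rw [h3, heW, hkd, hn0d]; ring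
        rw [this, hS]
        rw [dvd_neg]
        refine dvd_add (dvd_mul_of_dvd_left h1 _) (dvd_mul_of_dvd_right ?_ _)
        exact dvd_mul_of_dvd_left h1 _
  -- the symbols
  have hcW0n : IsCoprime W0 n0 := cop_of_primes fun p hp h1 h2 => hW0n p hp h1 h2
  have hcW0f : IsCoprime W0 f0 := cop_of_primes fun p hp h1 h2 => hW0f p hp h1 h2
  have hcW10 : IsCoprime W1 W0 := cop_of_primes fun p hp h1 h2 => hW01 p hp h2 h1
  have hcen : IsCoprime e n0 :=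
    cop_of_primes fun p hp h1 h2 => hnf p hp (hn0n p h2) (hef p h1)
  have hcle : IsCoprime l e :=
    cop_of_primes fun p hp h1 h2 => hnf p hp (hln p h1) (hef p h2)
  have hc2te : IsCoprime (2 * t) e := by
    apply cop_of_primes
    intro p hp h1 h2
    have h3 : (p : ℤ) ∣ n := by
      have : n = e ^ 2 * f0 - (2 * t) * (4 * t) := by rw [hfn]; ring
      rw [this]
      exact dvd_sub (hef p h2) (dvd_mul_of_dvd_left h1 _)
    exact hnp p hp h3 h1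
  have hc2tl : IsCoprime (2 * t) l :=
    cop_of_primes fun p hp h1 h2 => hnp p hp (hln p h2) h1
  have s1 : JJ d0 f0 = 1 := JJ_leg hcd hf0 hf08
  have s2 : JJ l f0 = JJ 2 l := by
    rw [JJ_recip hlo hf0p (by omega), ← JJ_sq_mul hcle.symm, hfn,
      JJ_congr (b := (2 * t) ^ 2 * 2), JJ_sq_mul hc2tl]
    rw [hnl]
    exact ⟨l * n0, by ring⟩
  have s3 : JJ W0 f0 * JJ W0 n0 = JJ 2 W0 := by
    rw [← JJ_mul_right _ hf0p.ne' hn0p.ne', JJ_recip hW0o (mul_pos hf0p hn0p)]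
    · rw [← JJ_sq_mul (a := 2) (cop_two hW0o), JJ_congr (b := W1 ^ 2 * 2), JJ_sq_mul hcW10]
      refine ⟨2 * W0, ?_⟩
      linear_combination (-2) * hW2
    · have : (f0 * n0) % 8 = 1 := by rw [Int.mul_emod, hf08, hn08]; norm_num
      omega
  have s4 : JJ T0 n0 = 1 := JJ_leg hcop hn0d hn08
  have s5 : JJ e n0 = JJ (-2) e := by
    rw [JJ_recip heo hn0p (by omega), ← JJ_sq_mul hcle, ← hnl,
      JJ_congr (b := (2 * t) ^ 2 * (-2)), JJ_sq_mul hc2te]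
    refine ⟨e * f0, ?_⟩
    linear_combination -hfn
  have s6 : JJ W0 n0 = JJ 2 k * JJ (-2) e := by
    have h1 : JJ (e * W0 * T0) n0 = JJ 2 k := by rw [← hKW, ← hKn0, hKn]
    rw [JJ_mul_left, JJ_mul_left, s4, mul_one, s5] at h1
    have h2 : JJ (-2) e * JJ (-2) e = 1 := by
      rw [← s5]
      exact JJ_mulself hcen
    rw [← h1]
    calc JJ W0 n0 = (JJ (-2) e * JJ (-2) e) * JJ W0 n0 := by rw [h2, one_mul]
      _ = JJ (-2) e * JJ W0 n0 * JJ (-2) e := by ring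
  have s7 : JJ (-2) e = JJ (-1) e * JJ 2 e := by
    rw [← JJ_mul_left]; norm_num
  have s8 : JJ W0 f0 = JJ 2 W0 * (JJ 2 k * (JJ (-1) e * JJ 2 e)) := by
    rw [← s7, ← s6, ← s3, mul_assoc, JJ_mulself hcW0n, mul_one]
  rw [hlW, JJ_mul_left, JJ_mul_left, s1, s2, s8, mul_one]
  -- the residue modulo `8`
  have hW00 : W0 ≠ 0 := by
    rintro h
    rw [h] at hW0o
    norm_num at hW0o
  have e1 : JJ 2 (l * W0 * (e * k)) = JJ 2 l * JJ 2 W0 * (JJ 2 e * JJ 2 k) := by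
    rw [JJ_mul_right _ (mul_ne_zero hl0.ne' hW00) (mul_ne_zero he.ne' hk0.ne'),
      JJ_mul_right _ hl0.ne' hW00, JJ_mul_right _ he.ne' hk0.ne']
  have e2 : (l * W0 * (e * k) + x) % 8 = 0 := by
    obtain ⟨T', hT'⟩ := hTT
    have hE2 : E ^ 2 % 8 = 1 := sq_mod_eight hEo
    have h1 : l * W0 * (e * k) = -(x * E) * E + 8 * (-(T' * D) * k - x * E * t') := by
      have h2 : l * W0 * (e * k) = (l * (e * W0)) * k := by ring
      have h3 : l * (e * W0) = -(x * E) - 8 * T' * D := by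
        rw [heW, ← hT', hx0, hT0]; ring
      rw [h2, h3, hkd, ht']; ring
    obtain ⟨q, hq⟩ : ∃ q : ℤ, E ^ 2 = 1 + 8 * q := ⟨E ^ 2 / 8, by omega⟩
    have h4 : l * W0 * (e * k) + x = 8 * (-(T' * D) * k - x * E * t' - x * q) := by
      rw [h1]
      linear_combination (-x) * hq
    rw [h4]
    exact Int.mul_emod_right 8 _
  have e3 : JJ 2 (l * W0 * (e * k)) = JJ 2 x := by
    have ho : (l * W0 * (e * k)) % 2 = 1 := by omega
    rw [JJ_two' ho, JJ_two' hxo]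
    by_cases h : x % 8 = 1 ∨ x % 8 = 7
    · rw [if_pos h, if_pos (by omega)]
    · rw [if_neg h, if_neg (by omega)]
  rw [← e3, e1]
  ring

end Pool.Agent.HFO
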