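import Pool.Agent.HFO.Third
import Pool.Agent.HFO.Quartic

/-!
# HFO/Core : all-odd positive solutions force `g = ± 3` modulo `8`
-/

set_option autoImplicit false

namespace Pool.Agent.HFO

/-- primes `3` modulo `4` do not divide `g x - 2` and `g x + 2` -/
theorem no_three {g t x y z : ℤ}
    (heq : x ^ 2 + y ^ 2 + z ^ 2 - g * x * y * z = -4 * t ^ 2 * (g ^ 2 * t ^ 2 + 2))
    {p : ℕ} (hp : p.Prime) (h3 : p % 4 = 3) : ¬ (p : ℤ) ∣ g * x - 2 ∧ ¬ (p : ℤ) ∣ g * x + 2 := by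
  have hpr : Prime (p : ℤ) := Nat.prime_iff_prime_int.mp hp
  have ho : p % 2 = 1 := by omega
  have hid : (g * x - 2) * (g * x + 2) * ((g * y) ^ 2 - 4) =
      (2 * (g * z) - g * x * (g * y)) ^ 2 + (4 * (g ^ 2 * t ^ 2 + 1)) ^ 2 := by
    linear_combination -4 * g ^ 2 * heq
  have key : ¬ (p : ℤ) ∣ (g * x - 2) * (g * x + 2) * ((g * y) ^ 2 - 4) := by
    intro h
    rw [hid] at h
    by_cases h1 : (p : ℤ) ∣ 4 * (g ^ 2 * t ^ 2 + 1)
    · have h2 : (p : ℤ) ∣ (g * t) ^ 2 + 1 ^ 2 := by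
        rcases hpr.dvd_or_dvd h1 with h4 | h4
        · have : (p : ℤ) ∣ 2 ^ 2 := by norm_num; exact h4
          exact absurd (hpr.dvd_of_dvd_pow this) (not_dvd_two hp ho)
        · have : (g * t) ^ 2 + 1 ^ 2 = g ^ 2 * t ^ 2 + 1 := by ring
          rw [this]; exact h4
      have h5 := four_of_sq hp ho h2 (fun h => hpr.not_isUnit (isUnit_of_dvd_one h))
      omega
    · have := four_of_sq hp ho h h1
      omega
  constructor
  · intro h
    exact key (dvd_mul_of_dvd_left (dvd_mul_of_dvd_left h _) _)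
  · intro h
    exact key (dvd_mul_of_dvd_left (dvd_mul_of_dvd_right h _) _)

/-- `g x = 3` modulo `4` -/
theorem gx_three {g t x y z : ℤ} (hg : g % 2 = 1) (hxo : x % 2 = 1) (hx : 0 < x) (hy : 0 < y)
    (hz : 0 < z)
    (heq : x ^ 2 + y ^ 2 + z ^ 2 - g * x * y * z = -4 * t ^ 2 * (g ^ 2 * t ^ 2 + 2)) :
    (g * x) % 4 = 3 ∧ 0 < g * x - 2 := by
  have hpos : 0 < g * x - 2 := by
    have h1 : 0 < (g * x - 2) * (y * z) := by
      have h2 : (g * x - 2) * (y * z) = x ^ 2 + (y - z) ^ 2 + 4 * t ^ 2 * (g ^ 2 * t ^ 2 + 2) := by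
        linear_combination -heq
      rw [h2]
      positivity
    exact (pos_iff_pos_of_mul_pos h1).mpr (mul_pos hy hz)
  have ho : (g * x - 2) % 2 = 1 := by
    have : (g * x) % 2 = 1 := by
      rw [Int.mul_emod, hg, hxo]; norm_num
    omega
  have h4 : (g * x - 2) % 4 = 1 := by
    apply mod_four_one hpos ho
    intro p hp hd
    have h1 := odd_of_dvd hp ho hd
    have h2 : p % 4 ≠ 3 := fun h => (no_three heq hp h).1 hd
    omega
  exact ⟨by omega, hpos⟩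

theorem mul4 {a b c : ℤ} (ha : a % 2 = 1) (h : (a * b) % 4 = (a * c) % 4) : b % 4 = c % 4 := by
  have h1 : (4 : ℤ) ∣ a * (b - c) := by
    have : a * (b - c) = a * b - a * c := by ring
    rw [this]
    omega
  have h2 : IsCoprime ((2 : ℤ) ^ 2) a := (cop_two ha).pow_left
  have h3 : (2 : ℤ) ^ 2 ∣ b - c := h2.dvd_of_dvd_mul_left (by norm_num; exact h1)
  norm_num at h3
  omega

/-- core theorem, `t` even and prime to `x` -/
theorem core_gen {g t x y z : ℤ} (ht : t % 2 = 0) (ht0 : 0 < t) (hg : 0 < g) (hgo : g % 2 = 1)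
    (hx : 0 < x) (hy : 0 < y) (hz : 0 < z) (hxo : x % 2 = 1) (hyo : y % 2 = 1) (hzo : z % 2 = 1)
    (hxt : IsCoprime x (2 * t)) (hyz : z < y)
    (heq : x ^ 2 + y ^ 2 + z ^ 2 - g * x * y * z = -4 * t ^ 2 * (g ^ 2 * t ^ 2 + 2)) :
    g % 8 = 3 ∨ g % 8 = 5 := by
  obtain ⟨hgx4, hq0⟩ := gx_three hgo hxo hx hy hz heq
  obtain ⟨hgy4, _⟩ := gx_three hgo hyo hy hx hz
    (by linear_combination heq :
      y ^ 2 + x ^ 2 + z ^ 2 - g * y * x * z = -4 * t ^ 2 * (g ^ 2 * t ^ 2 + 2))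
  obtain ⟨hgz4, _⟩ := gx_three hgo hzo hz hx hy
    (by linear_combination heq :
      z ^ 2 + x ^ 2 + y ^ 2 - g * z * x * y = -4 * t ^ 2 * (g ^ 2 * t ^ 2 + 2))
  -- the gcd of `y`, `z`
  obtain ⟨h, hh⟩ : ∃ h : ℤ, h = Int.gcd y z := ⟨_, rfl⟩
  have hh0 : 0 < h := by
    rw [hh]; exact_mod_cast Int.gcd_pos_of_ne_zero_right y hz.ne'
  obtain ⟨Y, hY⟩ : h ∣ y := by rw [hh]; exact Int.gcd_dvd_left ..
  obtain ⟨Z, hZ⟩ : h ∣ z := by rw [hh]; exact Int.gcd_dvd_right ..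
  have hYZ : IsCoprime Y Z := by
    rw [Int.isCoprime_iff_gcd_eq_one]
    have h1 : (Int.gcd y z : ℤ) = h * Int.gcd Y Z := by
      rw [hY, hZ, Int.gcd_mul_left]
      push_cast
      rw [abs_of_pos hh0]
    rw [← hh] at h1
    have h2 : (Int.gcd Y Z : ℤ) = 1 := by
      have h3 : h * (Int.gcd Y Z : ℤ) = h * 1 := by rw [← h1, mul_one]
      exact mul_left_cancel₀ hh0.ne' h3
    exact_mod_cast h2
  have hY0 : 0 < Y := (pos_iff_pos_of_mul_pos (by rw [← hY]; exact hy : 0 < h * Y)).mp hh0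
  have hZ0 : 0 < Z := (pos_iff_pos_of_mul_pos (by rw [← hZ]; exact hz : 0 < h * Z)).mp hh0
  have oddl : ∀ a b c : ℤ, a % 2 = 1 → a = b * c → b % 2 = 1 ∧ c % 2 = 1 := by
    intro a b c ha hab
    rcases Int.emod_two_eq_zero_or_one b with h1 | h1
    · exfalso
      obtain ⟨v, hv⟩ := Int.dvd_of_emod_eq_zero h1
      have : a = 2 * (v * c) := by rw [hab, hv]; ring
      omega
    · rcases Int.emod_two_eq_zero_or_one c with h2 | h2
      · exfalso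
        obtain ⟨v, hv⟩ := Int.dvd_of_emod_eq_zero h2
        have : a = 2 * (b * v) := by rw [hab, hv]; ring
        omega
      · exact ⟨h1, h2⟩
  obtain ⟨hho, hYo⟩ := oddl y h Y hyo hY
  obtain ⟨_, hZo⟩ := oddl z h Z hzo hZ
  have hlt : Z < Y := by
    rw [hY, hZ] at hyz
    exact lt_of_mul_lt_mul_left hyz hh0.le
  have h4 : (Y - Z) % 4 = 0 := by
    have hgh : (g * h) % 2 = 1 := by rw [Int.mul_emod, hgo, hho]; norm_num
    have h5 : Y % 4 = Z % 4 := by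
      apply mul4 hgh
      have e1 : g * h * Y = g * y := by rw [hY]; ring
      have e2 : g * h * Z = g * z := by rw [hZ]; ring
      rw [e1, e2, hgy4, hgz4]
    omega
  -- `w`
  obtain ⟨A, hA⟩ : ∃ A : ℤ, A = x + 2 * g * t ^ 2 := ⟨_, rfl⟩
  have hA0 : 0 < A := by rw [hA]; positivity
  obtain ⟨w, hw⟩ : ∃ w : ℤ, w = Int.gcd (Y - Z) A := ⟨_, rfl⟩
  have hw0 : 0 < w := by
    rw [hw]; exact_mod_cast Int.gcd_pos_of_ne_zero_right (Y - Z) hA0.ne'
  obtain ⟨u1, hu1⟩ : w ∣ Y - Z := by rw [hw]; exact Int.gcd_dvd_left ..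
  obtain ⟨A1, hA1⟩ : w ∣ A := by rw [hw]; exact Int.gcd_dvd_right ..
  have hc : IsCoprime u1 A1 := by
    rw [Int.isCoprime_iff_gcd_eq_one]
    have h1 : (Int.gcd (Y - Z) A : ℤ) = w * Int.gcd u1 A1 := by
      rw [hu1, hA1, Int.gcd_mul_left]
      push_cast
      rw [abs_of_pos hw0]
    rw [← hw] at h1
    have h2 : (Int.gcd u1 A1 : ℤ) = 1 := by
      have h3 : w * (Int.gcd u1 A1 : ℤ) = w * 1 := by rw [← h1, mul_one]
      exact mul_left_cancel₀ hw0.ne' h3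
    exact_mod_cast h2
  have d : Dat g t x Y Z h (g * x - 2) A (x - 2 * g * t ^ 2) (Y - Z)
      (h ^ 2 * (Y * Z) + 4 * t ^ 2) (g * x * Y * Z - Y ^ 2 - Z ^ 2) w u1 A1
      (A1 ^ 2 * (Y * Z) - 4 * t ^ 2 * u1 ^ 2) := by
    refine ⟨hx, hxo, ht, ht0, hg, hgo, hh0, hho, hY0, hYo, hZ0, hZo, hYZ, hlt, h4, hxt, ?_,
      fun p hp h3 => (no_three heq hp h3).1, rfl, hA, rfl, rfl, rfl, rfl, hw0, hu1, hA1, hc, rfl⟩
    rw [← hY, ← hZ]; exact heq
  obtain ⟨f, hf⟩ : ∃ f : ℤ, f = g * x * Y * Z - Y ^ 2 - Z ^ 2 := ⟨_, rfl⟩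
  rw [← hf] at d
  have hfpos := d.f_pos
  -- primes of `f`
  have hf3 : ∀ p : ℕ, p.Prime → (p : ℤ) ∣ f → p % 4 = 1 := by
    intro p hp hd
    have hpr : Prime (p : ℤ) := Nat.prime_iff_prime_int.mp hp
    obtain ⟨ho, hpY, hpt, _⟩ := d.f_units hp hd
    have hp2 := not_dvd_two hp ho
    by_contra hne
    have h3 : p % 4 = 3 := by omega
    obtain ⟨n1, n2⟩ := no_three heq hp h3
    have hpZ : ¬ (p : ℤ) ∣ Z := by
      intro h1
      apply hpY
      have h2 : (p : ℤ) ∣ Y ^ 2 := by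
        have : Y ^ 2 = Z * (g * x * Y - Z) - f := by rw [hf]; ring
        rw [this]
        exact dvd_sub (dvd_mul_of_dvd_left h1 _) hd
      exact hpr.dvd_of_dvd_pow h2
    have hpA : ¬ (p : ℤ) ∣ A := by
      intro h1
      have h2 : (p : ℤ) ∣ (2 * t) ^ 2 * (g * x - 2) := by
        have : (2 * t) ^ 2 * (g * x - 2) = A * A - h ^ 2 * f := by rw [d.f3]; ring
        rw [this]
        exact dvd_sub (dvd_mul_of_dvd_left h1 _) (dvd_mul_of_dvd_right hd _)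
      rcases hpr.dvd_or_dvd h2 with h3 | h3
      · rcases hpr.dvd_or_dvd (hpr.dvd_of_dvd_pow h3) with h4 | h4
        · exact hp2 h4
        · exact hpt h4
      · exact n1 h3
    have hpv : ¬ (p : ℤ) ∣ Y + Z := by
      intro h1
      have h2 : (p : ℤ) ∣ (g * x + 2) * (Y * Z) := by
        have : (g * x + 2) * (Y * Z) = f + (Y + Z) * (Y + Z) := by rw [hf]; ring
        rw [this]
        exact dvd_add hd (dvd_mul_of_dvd_left h1 _)
      rcases hpr.dvd_or_dvd h2 with h3 | h3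
      · exact n2 h3
      · rcases hpr.dvd_or_dvd h3 with h4 | h4
        · exact hpY h4
        · exact hpZ h4
    apply hne
    apply four_of_sq hp ho (a := (Y - Z) * (x - 2 * g * t ^ 2)) (b := (Y + Z) * A)
    · rw [d.f7]
      exact dvd_mul_of_dvd_left hd _
    · intro h1
      rcases hpr.dvd_or_dvd h1 with h2 | h2
      · exact hpv h2
      · exact hpA h2
  -- two squares
  obtain ⟨a, b, hab⟩ : ∃ a b : ℕ, f.natAbs = a ^ 2 + b ^ 2 := by
    rw [Nat.eq_sq_add_sq_iff]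
    intro q hq h3
    exfalso
    have h1 := Nat.mem_primeFactors.mp hq
    have h2 := hf3 q h1.1 (Int.natCast_dvd.mpr h1.2.1)
    omega
  have hab' : ∃ c1 d1 : ℤ, f = c1 ^ 2 + d1 ^ 2 ∧ d1 ≤ c1 := by
    have h1 : f = (a : ℤ) ^ 2 + (b : ℤ) ^ 2 := by
      have h2 : (f.natAbs : ℤ) = f := by
        rw [Int.natCast_natAbs, abs_of_pos hfpos]
      rw [← h2, hab]; push_cast; ring
    rcases le_total (b : ℤ) a with h | h
    · exact ⟨a, b, h1, h⟩
    · exact ⟨b, a, by rw [h1]; ring, h⟩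
  obtain ⟨c1, d1, hcd1, hle⟩ := hab'
  obtain ⟨e1, he1⟩ : ∃ e1 : ℤ, e1 = Int.gcd c1 d1 := ⟨_, rfl⟩
  have he10 : 0 < e1 := by
    rcases eq_or_ne c1 0 with h | h
    · rcases eq_or_ne d1 0 with h' | h'
      · exfalso
        rw [h, h'] at hcd1
        norm_num at hcd1
        omega
      · rw [he1]; exact_mod_cast Int.gcd_pos_of_ne_zero_right c1 h'
    · rw [he1]; exact_mod_cast Int.gcd_pos_of_ne_zero_left d1 h
  obtain ⟨c0, hc0⟩ : e1 ∣ c1 := by rw [he1]; exact Int.gcd_dvd_left ..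
  obtain ⟨d0, hd0⟩ : e1 ∣ d1 := by rw [he1]; exact Int.gcd_dvd_right ..
  have hcd : IsCoprime c0 d0 := by
    rw [Int.isCoprime_iff_gcd_eq_one]
    have h1 : (Int.gcd c1 d1 : ℤ) = e1 * Int.gcd c0 d0 := by
      rw [hc0, hd0, Int.gcd_mul_left]
      push_cast
      rw [abs_of_pos he10]
    rw [← he1] at h1
    have h2 : (Int.gcd c0 d0 : ℤ) = 1 := by
      have h3 : e1 * (Int.gcd c0 d0 : ℤ) = e1 * 1 := by rw [← h1, mul_one]
      exact mul_left_cancel₀ he10.ne' h3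
    exact_mod_cast h2
  have hfe : f = e1 ^ 2 * (c0 ^ 2 + d0 ^ 2) := by rw [hcd1, hc0, hd0]; ring
  have J1 := d.first hfe rfl hcd
  have J2 := quartic (e := h * e1) hx hxo ht ht0 hg hgo hxt (mul_pos hh0 he10) hcd rfl
    (by
      have h1 := d.f2
      rw [hfe] at h1
      linear_combination h1)
    (by
      have h1 : 0 ≤ c0 - d0 := by
        have h2 : 0 ≤ e1 * (c0 - d0) := by
          have : e1 * (c0 - d0) = c1 - d1 := by rw [hc0, hd0]; ring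
          rw [this]; omega
        exact nonneg_of_mul_nonneg_right h2 he10
      positivity)
  have hBA : ((x - 2 * g * t ^ 2) * d0 - A * c0) * d0 =
      ((x - 2 * g * t ^ 2) * d0 - (x + 2 * g * t ^ 2) * c0) * d0 := by rw [hA]
  rw [hBA, J2] at J1
  -- signs
  have he1o : e1 % 2 = 1 := by
    obtain ⟨s, hs⟩ := d.fo
    exact (oddl f e1 (e1 * (c0 ^ 2 + d0 ^ 2)) (by omega) (by rw [hfe]; ring)).1
  have he14 : e1 % 4 = 1 := by
    apply mod_four_one he10 he1o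
    intro p hp hd
    apply hf3 p hp
    rw [hfe]
    exact dvd_mul_of_dvd_left (dvd_pow hd two_ne_zero) _
  have hxY : JJ (-1) x * JJ (-1) Y = JJ (-1) h := by
    have h1 : x % 4 = y % 4 := mul4 hgo (by rw [hgx4, hgy4])
    have h2 : JJ (-1) x = JJ (-1) y := by
      rw [JJ_negone hx hxo, JJ_negone hy hyo, h1]
    have h3 : JJ (-1) y = JJ (-1) h * JJ (-1) Y := by
      rw [hY, JJ_mul_right _ hh0.ne' hY0.ne']
    have h4 : JJ (-1) Y * JJ (-1) Y = 1 := JJ_mulself (isCoprime_one_left.neg_left)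
    rw [h2, h3, mul_assoc, h4, mul_one]
  have hhe : JJ (-1) (h * e1) = JJ (-1) h := by
    rw [JJ_mul_right _ hh0.ne' he10.ne', JJ_negone_one he10 he14, mul_one]
  rw [hhe, mul_assoc, hxY] at J1
  have hhh : JJ (-1) h * JJ (-1) h = 1 := JJ_mulself (isCoprime_one_left.neg_left)
  have J3 : JJ 2 x = JJ 2 (Y * Z) := by
    calc JJ 2 x = JJ 2 x * (JJ (-1) h * JJ (-1) h) := by rw [hhh, mul_one]
      _ = (JJ 2 x * JJ (-1) h) * JJ (-1) h := by ring
      _ = (JJ 2 (Y * Z) * JJ (-1) h) * JJ (-1) h := by rw [J1]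
      _ = JJ 2 (Y * Z) * (JJ (-1) h * JJ (-1) h) := by ring
      _ = JJ 2 (Y * Z) := by rw [hhh, mul_one]
  have hYZo : (Y * Z) % 2 = 1 := by rw [Int.mul_emod, hYo, hZo]; norm_num
  rw [JJ_two' hxo, JJ_two' hYZo] at J3
  -- modulo `8`
  obtain ⟨sx, hsx⟩ := sq_mod8 hxo
  obtain ⟨sy, hsy⟩ := sq_mod8 hyo
  obtain ⟨sz, hsz⟩ := sq_mod8 hzo
  obtain ⟨sh, hsh⟩ := sq_mod8 hho
  obtain ⟨t', ht'⟩ := Int.dvd_of_emod_eq_zero ht
  have hmod : ∃ s : ℤ, g * (x * (Y * Z)) = 8 * s + 3 := by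
    refine ⟨sx + sy + sz + 2 * t' ^ 2 * (g ^ 2 * t ^ 2 + 2) - sh * (g * (x * (Y * Z))), ?_⟩
    have h1 : g * x * y * z = h ^ 2 * (g * (x * (Y * Z))) := by rw [hY, hZ]; ring
    have h2 : 4 * t ^ 2 = 16 * t' ^ 2 := by rw [ht']; ring
    rw [hsh] at h1
    linear_combination -heq - h1 + hsx + hsy + hsz + (g ^ 2 * t ^ 2 + 2) * h2
  obtain ⟨s, hs⟩ := hmod
  have hm : (x * (Y * Z)) % 8 = 1 ∨ (x * (Y * Z)) % 8 = 7 := by
    have hx8 : x % 8 = 1 ∨ x % 8 = 3 ∨ x % 8 = 5 ∨ x % 8 = 7 := by omega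
    have hy8 : (Y * Z) % 8 = 1 ∨ (Y * Z) % 8 = 3 ∨ (Y * Z) % 8 = 5 ∨ (Y * Z) % 8 = 7 := by omega
    rw [Int.mul_emod]
    rcases hx8 with h1 | h1 | h1 | h1 <;> rcases hy8 with h2 | h2 | h2 | h2 <;>
      rw [h1, h2] at J3 <;> rw [h1, h2] <;> first | (exfalso; norm_num at J3; done) | norm_num
  have hg8 : g % 8 = 1 ∨ g % 8 = 3 ∨ g % 8 = 5 ∨ g % 8 = 7 := by omega
  have hprod : (g % 8 * ((x * (Y * Z)) % 8)) % 8 = 3 := by
    rw [← Int.mul_emod, hs]; omega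
  rcases hg8 with h1 | h1 | h1 | h1 <;> rcases hm with h2 | h2 <;> rw [h1, h2] at hprod <;>
    norm_num at hprod <;> omega

theorem core (g t x y z : ℤ) (j : ℕ) (hj : 1 ≤ j) (ht : t = 2 ^ j) (hg : 0 < g) (hgo : Odd g)
    (hx : 0 < x) (hy : 0 < y) (hz : 0 < z) (hxo : Odd x) (hyo : Odd y) (hzo : Odd z) (hyz : z < y)
    (heq : x ^ 2 + y ^ 2 + z ^ 2 - g * x * y * z = -4 * t ^ 2 * (g ^ 2 * t ^ 2 + 2)) :
    g % 8 = 3 ∨ g % 8 = 5 := by
  have hxo' := Int.odd_iff.mp hxo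
  apply core_gen _ _ hg (Int.odd_iff.mp hgo) hx hy hz hxo' (Int.odd_iff.mp hyo)
    (Int.odd_iff.mp hzo) _ hyz heq
  · obtain ⟨i, rfl⟩ : ∃ i, j = i + 1 := ⟨j - 1, by omega⟩
    rw [ht, pow_succ]; omega
  · rw [ht]; positivity
  · have h1 : 2 * t = 2 ^ (j + 1) := by rw [ht, pow_succ]; ring
    rw [h1]
    exact ((cop_two hxo').pow_left).symm

end Pool.Agent.HFO
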