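import Pool.Agent.HFO.Core

/-!
# HFO/Ell : all-odd positive solutions, `t = 2` and `t = 2 ℓ` with a prime `ℓ`
-/

set_option autoImplicit false

namespace Pool.Agent.HFO

/-- the equation -/
def Sol (g t x y z : ℤ) : Prop :=
  x ^ 2 + y ^ 2 + z ^ 2 - g * x * y * z = -4 * t ^ 2 * (g ^ 2 * t ^ 2 + 2)

/-- positive, all odd -/
structure Odd3 (g t x y z : ℤ) : Prop where
  hx : 0 < x
  hy : 0 < y
  hz : 0 < z
  hxo : x % 2 = 1
  hyo : y % 2 = 1
  hzo : z % 2 = 1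
  heq : Sol g t x y z

namespace Odd3

variable {g t x y z : ℤ}

theorem swap (d : Odd3 g t x y z) : Odd3 g t x z y :=
  ⟨d.hx, d.hz, d.hy, d.hxo, d.hzo, d.hyo, by
    have := d.heq
    unfold Sol at this ⊢
    linear_combination this⟩

theorem rot (d : Odd3 g t x y z) : Odd3 g t y z x :=
  ⟨d.hy, d.hz, d.hx, d.hyo, d.hzo, d.hxo, by
    have := d.heq
    unfold Sol at this ⊢
    linear_combination this⟩

end Odd3

theorem core_ne {g t x y z : ℤ} (ht : t % 2 = 0) (ht0 : 0 < t) (hg : 0 < g) (hgo : g % 2 = 1)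
    (d : Odd3 g t x y z) (hxt : IsCoprime x (2 * t)) (hyz : y ≠ z) : g % 8 = 3 ∨ g % 8 = 5 := by
  rcases lt_or_gt_of_ne hyz with h | h
  · have d' := d.swap
    exact core_gen ht ht0 hg hgo d'.hx d'.hy d'.hz d'.hxo d'.hyo d'.hzo hxt h d'.heq
  · exact core_gen ht ht0 hg hgo d.hx d.hy d.hz d.hxo d.hyo d.hzo hxt h d.heq

/-- from three equal numbers to another all-odd solution -/
theorem vieta_eq {g t x : ℤ} (ht0 : 0 < t) (hg : 0 < g) (hgo : g % 2 = 1)
    (d : Odd3 g t x x x) : ∃ x1 y1 : ℤ, Odd3 g t x1 y1 x ∧ x < y1 := by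
  have hx := d.hx
  have heq := d.heq
  unfold Sol at heq
  have hgx := (gx_three hgo d.hxo d.hx d.hx d.hx heq).2
  obtain ⟨e, he⟩ : ∃ e : ℤ, e = g * x * x - x := ⟨_, rfl⟩
  have he2 : e ^ 2 + x ^ 2 + x ^ 2 - g * e * x * x = -4 * t ^ 2 * (g ^ 2 * t ^ 2 + 2) := by
    rw [he]; linear_combination heq
  have he0 : 1 < e := by
    have : e = (g * x - 2) * x + x := by rw [he]; ring
    have h1 : 0 < (g * x - 2) * x := mul_pos hgx hx
    omega
  obtain ⟨y1, hy1⟩ : ∃ y1 : ℤ, y1 = g * e * x - x := ⟨_, rfl⟩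
  have hy2 : e ^ 2 + y1 ^ 2 + x ^ 2 - g * e * y1 * x = -4 * t ^ 2 * (g ^ 2 * t ^ 2 + 2) := by
    rw [hy1]; linear_combination he2
  have hge : 2 < g * e := by
    -- `(g e - 2) x² = e² + 4 t² (..)`
    have h1 : 0 < (g * e - 2) * x ^ 2 := by
      have : (g * e - 2) * x ^ 2 = e ^ 2 + 4 * t ^ 2 * (g ^ 2 * t ^ 2 + 2) := by
        linear_combination -he2
      rw [this]; positivity
    have h2 : 0 < g * e - 2 := (pos_iff_pos_of_mul_pos h1).mpr (by positivity)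
    omega
  have hxy : x < y1 := by
    have : y1 = (g * e - 2) * x + x := by rw [hy1]; ring
    have h1 : 0 < (g * e - 2) * x := mul_pos (by omega) hx
    omega
  obtain ⟨x1, hx1⟩ : ∃ x1 : ℤ, x1 = g * y1 * x - e := ⟨_, rfl⟩
  have hx2 : Sol g t x1 y1 x := by
    unfold Sol
    rw [hx1]; linear_combination hy2
  have hx10 : 0 < x1 := by
    have h1 : x1 * e = y1 ^ 2 + x ^ 2 + 4 * t ^ 2 * (g ^ 2 * t ^ 2 + 2) := by
      rw [hx1]; linear_combination -hy2
    have h2 : 0 < x1 * e := by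
      rw [h1]; positivity
    exact (pos_iff_pos_of_mul_pos h2).mpr (by omega)
  have heo : e % 2 = 0 := by
    have h1 : (g * x * x) % 2 = 1 := by
      rw [Int.mul_emod, Int.mul_emod g x, hgo, d.hxo]; norm_num
    have := d.hxo
    omega
  obtain ⟨e', he'⟩ := Int.dvd_of_emod_eq_zero heo
  have hy1o : y1 % 2 = 1 := by
    have h1 : y1 = 2 * (g * e' * x) - x := by rw [hy1, he']; ring
    have := d.hxo
    omega
  have hx1o : x1 % 2 = 1 := by
    have h1 : (g * y1 * x) % 2 = 1 := by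
      rw [Int.mul_emod, Int.mul_emod g y1, hgo, d.hxo, hy1o]; norm_num
    omega
  exact ⟨x1, y1, ⟨hx10, by omega, hx, hx1o, hy1o, d.hxo, hx2⟩, hxy⟩

/-- `t = 2` -/
theorem core_two {g x y z : ℤ} (hg : 0 < g) (hgo : g % 2 = 1) (d : Odd3 g 2 x y z) :
    g % 8 = 3 ∨ g % 8 = 5 := by
  have hc : ∀ a : ℤ, a % 2 = 1 → IsCoprime a (2 * 2) := by
    intro a ha
    have h1 : (2 * 2 : ℤ) = 2 ^ 2 := by norm_num
    rw [h1]
    exact ((cop_two ha).pow_left).symm
  by_cases h1 : y = z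
  · by_cases h2 : x = y
    · subst h1 h2
      obtain ⟨x1, y1, d', h⟩ := vieta_eq (by norm_num) hg hgo d
      exact core_ne (by norm_num) (by norm_num) hg hgo d' (hc _ d'.hxo) (by omega)
    · have d' := d.rot.rot
      exact core_ne (by norm_num) (by norm_num) hg hgo d' (hc _ d'.hxo) h2
  · exact core_ne (by norm_num) (by norm_num) hg hgo d (hc _ d.hxo) h1

/-- if a prime of `t` divides two of the numbers it divides the third -/
theorem two_three {g t x y z : ℤ} {l : ℕ} (hl : l.Prime) (hlt : (l : ℤ) ∣ t) (h : Sol g t x y z)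
    (h1 : (l : ℤ) ∣ x) (h2 : (l : ℤ) ∣ y) : (l : ℤ) ∣ z := by
  have hpr : Prime (l : ℤ) := Nat.prime_iff_prime_int.mp hl
  unfold Sol at h
  have h3 : (l : ℤ) ∣ z ^ 2 := by
    have : z ^ 2 = x * (g * y * z - x) - y * y - t * (4 * t * (g ^ 2 * t ^ 2 + 2)) := by
      linear_combination h
    rw [this]
    exact dvd_sub (dvd_sub (dvd_mul_of_dvd_left h1 _) (dvd_mul_of_dvd_left h2 _))
      (dvd_mul_of_dvd_left hlt _)
  exact hpr.dvd_of_dvd_pow h3

theorem core_ell {g : ℤ} {l : ℕ} (hl : l.Prime) (hlo : l % 2 = 1) (hg : 0 < g) (hgo : g % 2 = 1)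
    {x y z : ℤ} (d : Odd3 g (2 * l) x y z)
    (hnot : ¬ ((l : ℤ) ∣ x ∧ (l : ℤ) ∣ y ∧ (l : ℤ) ∣ z)) : g % 8 = 3 ∨ g % 8 = 5 := by
  have hl0 : (0 : ℤ) < l := by exact_mod_cast hl.pos
  have ht : (2 * (l : ℤ)) % 2 = 0 := by omega
  have ht0 : (0 : ℤ) < 2 * l := by omega
  have hlt : (l : ℤ) ∣ 2 * l := Dvd.intro_left _ rfl
  have hc : ∀ a : ℤ, a % 2 = 1 → ¬ (l : ℤ) ∣ a → IsCoprime a (2 * (2 * l)) := by
    intro a ha hla
    have h2 := (cop_two ha).symm
    exact h2.mul_right (h2.mul_right (cop_of_not_dvd hl hla))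
  -- a solution with not all equal entries
  have main : ∀ x y z : ℤ, Odd3 g (2 * l) x y z →
      ¬ ((l : ℤ) ∣ x ∧ (l : ℤ) ∣ y ∧ (l : ℤ) ∣ z) → ¬ (x = y ∧ y = z) →
      g % 8 = 3 ∨ g % 8 = 5 := by
    intro x y z d hnot hne
    by_cases hx : (l : ℤ) ∣ x
    · have hy : ¬ (l : ℤ) ∣ y := fun h => hnot ⟨hx, h, two_three hl hlt d.heq hx h⟩
      have hz : ¬ (l : ℤ) ∣ z := by
        intro h
        exact hy (two_three hl hlt d.swap.heq hx h)
      refine core_ne ht ht0 hg hgo d.rot (hc _ d.hyo hy) ?_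
      rintro rfl
      exact hz hx
    · by_cases hy : (l : ℤ) ∣ y
      · have hz : ¬ (l : ℤ) ∣ z := by
          intro h
          exact hx (two_three hl hlt d.rot.heq hy h)
        refine core_ne ht ht0 hg hgo d (hc _ d.hxo hx) ?_
        rintro rfl
        exact hz hy
      · by_cases hyz : y = z
        · have hxy : x ≠ y := fun h => hne ⟨h, hyz⟩
          refine core_ne ht ht0 hg hgo d.rot (hc _ d.hyo hy) ?_
          rintro rfl
          exact hxy hyz.symm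
        · exact core_ne ht ht0 hg hgo d (hc _ d.hxo hx) hyz
  by_cases hall : x = y ∧ y = z
  · obtain ⟨rfl, rfl⟩ := hall
    obtain ⟨x1, y1, d', h⟩ := vieta_eq ht0 hg hgo d
    apply main x1 y1 x d'
    · rintro ⟨_, _, h3⟩
      exact hnot ⟨h3, h3, h3⟩
    · rintro ⟨_, h3⟩
      omega
  · exact main x y z d hnot hall

/-- `t = 2 ℓ`, `ℓ = ± 1` modulo `8` -/
theorem core_ell' {g : ℤ} {l : ℕ} (hl : l.Prime) (hl8 : l % 8 = 1 ∨ l % 8 = 7) (hg : 0 < g)
    (hgo : g % 2 = 1) {x y z : ℤ} (d : Odd3 g (2 * l) x y z) : g % 8 = 3 ∨ g % 8 = 5 := by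
  have hl0 : (0 : ℤ) < l := by exact_mod_cast hl.pos
  by_cases hall : (l : ℤ) ∣ x ∧ (l : ℤ) ∣ y ∧ (l : ℤ) ∣ z
  · obtain ⟨⟨x', hx'⟩, ⟨y', hy'⟩, ⟨z', hz'⟩⟩ := hall
    have hx0 : 0 < x' := (pos_iff_pos_of_mul_pos (by rw [← hx']; exact d.hx)).mp hl0
    have hy0 : 0 < y' := (pos_iff_pos_of_mul_pos (by rw [← hy']; exact d.hy)).mp hl0
    have hz0 : 0 < z' := (pos_iff_pos_of_mul_pos (by rw [← hz']; exact d.hz)).mp hl0
    have hod : ∀ a b : ℤ, a % 2 = 1 → a = l * b → b % 2 = 1 := by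
      intro a b ha hab
      exact (odd_mul_iff (a := (l : ℤ)) (b := b) (by rw [← hab]; exact ha)).2
    have hgl : (g * l) % 2 = 1 := by
      rw [Int.mul_emod, hgo]
      have : (l : ℤ) % 2 = 1 := by omega
      rw [this]; norm_num
    have d' : Odd3 (g * l) 2 x' y' z' := by
      refine ⟨hx0, hy0, hz0, hod _ _ d.hxo hx', hod _ _ d.hyo hy', hod _ _ d.hzo hz', ?_⟩
      have h := d.heq
      unfold Sol at h ⊢
      rw [hx', hy', hz'] at h
      have h1 : (l : ℤ) ^ 2 * (x' ^ 2 + y' ^ 2 + z' ^ 2 - g * l * x' * y' * z') =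
          (l : ℤ) ^ 2 * (-4 * 2 ^ 2 * ((g * l) ^ 2 * 2 ^ 2 + 2)) := by
        linear_combination h
      exact mul_left_cancel₀ (pow_ne_zero 2 hl0.ne') h1
    have h8 := core_two (mul_pos hg hl0) hgl d'
    have hl8' : (l : ℤ) % 8 = 1 ∨ (l : ℤ) % 8 = 7 := by omega
    have hg8 : g % 8 = 1 ∨ g % 8 = 3 ∨ g % 8 = 5 ∨ g % 8 = 7 := by omega
    rw [Int.mul_emod] at h8
    rcases hl8' with h | h <;> rcases hg8 with h' | h' | h' | h' <;> rw [h, h'] at h8 <;>
      first | (exfalso; norm_num at h8; done) | omega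
  · exact core_ell hl (by omega) hg hgo d hall

end Pool.Agent.HFO
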