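import Mathlib

/-!
# HFO/FinC : primes in the class of a square root of `-2`
-/

set_option autoImplicit false

namespace Pool.Agent.HFO

/-- `-2` is a square modulo the powers of a prime `3` modulo `8` -/
theorem sqrt_neg_two {p : ℕ} (hp : p.Prime) (hp8 : p % 8 = 3) (k : ℕ) :
    ∃ s : ℤ, (p : ℤ) ^ (k + 1) ∣ s ^ 2 + 2 := by
  have hp2 : p ≠ 2 := by omega
  have hpr : Prime (p : ℤ) := Nat.prime_iff_prime_int.mp hp
  induction k with
  | zero =>
    have : Fact p.Prime := ⟨hp⟩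
    obtain ⟨r, hr⟩ := (ZMod.exists_sq_eq_neg_two_iff hp2).mpr (Or.inr hp8)
    obtain ⟨s, rfl⟩ := ZMod.intCast_surjective r
    refine ⟨s, ?_⟩
    rw [zero_add, pow_one, ← ZMod.intCast_zmod_eq_zero_iff_dvd]
    push_cast
    rw [pow_two, ← hr]
    ring
  | succ k ih =>
    obtain ⟨s, q, hq⟩ := ih
    have hps : ¬ (p : ℤ) ∣ 2 * s := by
      intro h
      have hp2' : ¬ (p : ℤ) ∣ 2 := by
        intro h
        have h3 : (p : ℤ) ∣ ((2 : ℕ) : ℤ) := by exact_mod_cast h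
        exact hp2 ((Nat.prime_dvd_prime_iff_eq hp Nat.prime_two).mp (Int.natCast_dvd_natCast.mp h3))
      rcases hpr.dvd_or_dvd h with h | h
      · exact hp2' h
      · apply hp2'
        have : (2 : ℤ) = (p : ℤ) * ((p : ℤ) ^ k * q) - s ^ 2 := by
          rw [← mul_assoc, ← pow_succ', ← hq]; ring
        rw [this]
        exact dvd_sub (dvd_mul_right _ _) (dvd_pow h two_ne_zero)
    obtain ⟨u, w, huw⟩ := (Prime.coprime_iff_not_dvd hpr).mpr hps
    -- `u p + w (2 s) = 1`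
    refine ⟨s - (p : ℤ) ^ (k + 1) * (w * q), q * u + (p : ℤ) ^ k * (w * q) ^ 2, ?_⟩
    have h1 : (s - (p : ℤ) ^ (k + 1) * (w * q)) ^ 2 + 2
        = (s ^ 2 + 2) - (p : ℤ) ^ (k + 1) * q * (w * (2 * s)) +
          (p : ℤ) ^ (k + 1) * (p : ℤ) ^ (k + 1) * (w * q) ^ 2 := by ring
    rw [h1, hq]
    have h2 : w * (2 * s) = 1 - u * p := by linear_combination huw
    rw [h2]
    ring

/-- primes `l = 1` modulo `8` with `(2 g l)² = -2` modulo `p^(2 v)` -/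
theorem finC {p : ℕ} (hp : p.Prime) (hp8 : p % 8 = 3) (v : ℕ) {g : ℤ} (hg : ¬ (p : ℤ) ∣ g)
    (N : ℕ) :
    ∃ l : ℕ, N < l ∧ l.Prime ∧ l % 8 = 1 ∧ (p : ℤ) ^ (2 * v) ∣ (g * (2 * l)) ^ 2 + 2 := by
  have hp2 : p ≠ 2 := by omega
  have hpr : Prime (p : ℤ) := Nat.prime_iff_prime_int.mp hp
  have hp2' : ¬ (p : ℤ) ∣ 2 := by
    intro h
    have h3 : (p : ℤ) ∣ ((2 : ℕ) : ℤ) := by exact_mod_cast h
    exact hp2 ((Nat.prime_dvd_prime_iff_eq hp Nat.prime_two).mp (Int.natCast_dvd_natCast.mp h3))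
  obtain ⟨s, hs⟩ := sqrt_neg_two hp hp8 (2 * v)
  have hps : ¬ (p : ℤ) ∣ s := by
    intro h
    apply hp2'
    have h1 : (p : ℤ) ∣ s ^ 2 + 2 := (Dvd.intro_left _ (pow_succ _ _).symm).trans hs
    have : (2 : ℤ) = (s ^ 2 + 2) - s ^ 2 := by ring
    rw [this]
    exact dvd_sub h1 (dvd_pow h two_ne_zero)
  have hc : IsCoprime (16 * g) ((p : ℤ) ^ (2 * v + 1)) := by
    apply IsCoprime.pow_right
    apply ((Prime.coprime_iff_not_dvd hpr).mpr _).symm
    intro h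
    rcases hpr.dvd_or_dvd h with h | h
    · have : (16 : ℤ) = 2 ^ 4 := by norm_num
      rw [this] at h
      exact hp2' (hpr.dvd_of_dvd_pow h)
    · exact hg h
  obtain ⟨u, w, huw⟩ := hc
  obtain ⟨a, ha⟩ : ∃ a : ℤ, a = 1 + 8 * (u * (s - 2 * g)) := ⟨_, rfl⟩
  -- `2 g a = s` modulo `p^(2v+1)`
  have hga : (p : ℤ) ^ (2 * v + 1) ∣ 2 * g * a - s := by
    refine ⟨-(w * (s - 2 * g)), ?_⟩
    rw [ha]
    linear_combination (s - 2 * g) * huw
  have hpa : ¬ (p : ℤ) ∣ a := by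
    intro h
    apply hps
    have h1 : (p : ℤ) ∣ 2 * g * a - s := (Dvd.intro_left _ (pow_succ _ _).symm).trans hga
    have : s = 2 * g * a - (2 * g * a - s) := by ring
    rw [this]
    exact dvd_sub (dvd_mul_of_dvd_right h _) h1
  have hca : IsCoprime a (((8 * p ^ (2 * v + 1) : ℕ) : ℤ)) := by
    push_cast
    apply IsCoprime.mul_right
    · exact ⟨1, -(u * (s - 2 * g)), by rw [ha]; ring⟩
    · exact ((Prime.coprime_iff_not_dvd hpr).mpr hpa).symm.pow_right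
  have : NeZero (8 * p ^ (2 * v + 1)) := ⟨by
    have := hp.pos
    positivity⟩
  have hunit : IsUnit ((a : ℤ) : ZMod (8 * p ^ (2 * v + 1))) := by
    rw [ZMod.coe_int_isUnit_iff_isCoprime]
    exact hca.symm
  obtain ⟨l, hl, hlp, hla⟩ := Nat.forall_exists_prime_gt_and_eq_mod hunit N
  have hmod : ((8 * p ^ (2 * v + 1) : ℕ) : ℤ) ∣ (l : ℤ) - a := by
    rw [← ZMod.intCast_zmod_eq_zero_iff_dvd]
    push_cast
    rw [hla, sub_self]
  have h8 : (8 : ℤ) ∣ (l : ℤ) - a := by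
    refine Dvd.dvd.trans ?_ hmod
    push_cast
    exact dvd_mul_right _ _
  have hpp : (p : ℤ) ^ (2 * v + 1) ∣ (l : ℤ) - a := by
    refine Dvd.dvd.trans ?_ hmod
    push_cast
    exact dvd_mul_left _ _
  refine ⟨l, hl, hlp, ?_, ?_⟩
  · have : (l : ℤ) % 8 = 1 := by omega
    omega
  · have h1 : (p : ℤ) ^ (2 * v) ∣ (p : ℤ) ^ (2 * v + 1) := pow_dvd_pow _ (Nat.le_succ _)
    refine h1.trans ?_
    have h2 : (p : ℤ) ^ (2 * v + 1) ∣ g * (2 * l) - s := by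
      have : g * (2 * (l : ℤ)) - s = 2 * g * ((l : ℤ) - a) + (2 * g * a - s) := by ring
      rw [this]
      exact dvd_add (dvd_mul_of_dvd_right hpp _) hga
    have : (g * (2 * (l : ℤ))) ^ 2 + 2 = (g * (2 * l) - s) * (g * (2 * l) + s) + (s ^ 2 + 2) := by
      ring
    rw [this]
    exact dvd_add (dvd_mul_of_dvd_left h2 _) hs

end Pool.Agent.HFO
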