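import Pool.Agent.HFO.Reduce
import Pool.Agent.HFO.FinC
import Pool.Agent.H8.HasseFailures

/-!
# HFO/Fin : infinitely many Hasse failures
-/

set_option autoImplicit false

namespace Pool.Agent.HFO

/-- the set of failures of the local-global principle -/
def Fail (a : ℤ) : Set ℤ :=
  {b : ℤ | (∀ m : ℕ, 0 < m →
      ∃ x y z : ℤ, (m : ℤ) ∣ x ^ 2 + y ^ 2 + z ^ 2 - a * x * y * z - b) ∧
    ¬ ∃ x y z : ℤ, x ^ 2 + y ^ 2 + z ^ 2 - a * x * y * z = b}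

theorem Fail_neg (a : ℤ) : Fail (-a) = Fail a := by
  have key : ∀ a : ℤ, Fail (-a) ⊆ Fail a := by
    intro a b hb
    refine ⟨?_, ?_⟩
    · intro m hm
      obtain ⟨x, y, z, h⟩ := hb.1 m hm
      refine ⟨-x, y, z, ?_⟩
      have : (-x) ^ 2 + y ^ 2 + z ^ 2 - a * (-x) * y * z - b =
          x ^ 2 + y ^ 2 + z ^ 2 - -a * x * y * z - b := by ring
      rw [this]; exact h
    · rintro ⟨x, y, z, h⟩
      apply hb.2
      refine ⟨-x, y, z, ?_⟩
      rw [← h]; ring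
  apply Set.Subset.antisymm (key a)
  have := key (-a)
  rwa [neg_neg] at this

theorem inf_of {S : Set ℤ} (h : ∀ N : ℕ, ∃ b ∈ S, b < -(N : ℤ)) : S.Infinite := by
  apply Set.infinite_of_not_bddBelow
  rintro ⟨B, hB⟩
  obtain ⟨b, hb, hlt⟩ := h B.natAbs
  have h1 := hB hb
  omega

/-- local solvability for odd `a` -/
theorem loc_odd {a b : ℤ} (ha : a % 2 = 1) (h3 : (3 : ℤ) ∣ a ∨ b % 9 = 0) (h4 : (4 : ℤ) ∣ b) :
    ∀ m : ℕ, 0 < m →
      ∃ x y z : ℤ, (m : ℤ) ∣ x ^ 2 + y ^ 2 + z ^ 2 - a * x * y * z - b := by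
  have h := (Pool.Agent.H8.MarkoffLocal.loc_iff a b).mpr
  apply h
  refine ⟨?_, ?_, ?_, ?_, ?_⟩
  · rcases h3 with h3 | h3
    · exact Or.inl h3
    · right; omega
  · intro _; omega
  · intro h; omega
  · intro h; omega
  · intro h; omega

theorem b_lt {t c : ℤ} {N : ℕ} (ht : (N : ℤ) < t) (hc : 0 < c) : -4 * t ^ 2 * c < -(N : ℤ) := by
  have h1 : (0 : ℤ) ≤ N := by positivity
  have h2 : t ≤ t ^ 2 := by nlinarith
  have h3 : t ^ 2 ≤ t ^ 2 * c := by nlinarith [sq_nonneg t]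
  nlinarith

theorem lt_two_pow' (j : ℕ) : (j : ℤ) < 2 ^ j := by exact_mod_cast Nat.lt_two_pow_self

/-- case (A) -/
theorem caseA {a : ℤ} (ha : 0 < a) (h8 : a % 8 = 1 ∨ a % 8 = 7) : (Fail a).Infinite := by
  apply inf_of
  intro N
  obtain ⟨j, hj1, hjN, h9⟩ : ∃ j : ℕ, 1 ≤ j ∧ N ≤ j ∧
      ((3 : ℤ) ∣ a ∨ (a ^ 2 * 4 ^ j) % 9 = 7) := by
    by_cases h3 : (3 : ℤ) ∣ a
    · exact ⟨N + 1, by omega, by omega, Or.inl h3⟩
    · have hpow : ∀ i : ℕ, ∃ k : ℤ, (4 : ℤ) ^ (3 * i) = 9 * k + 1 := by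
        intro i
        induction i with
        | zero => exact ⟨0, by norm_num⟩
        | succ i ih =>
          obtain ⟨k, hk⟩ := ih
          refine ⟨64 * k + 7, ?_⟩
          rw [mul_add, pow_add, hk]; ring
      obtain ⟨k, hk⟩ := hpow N
      have ha3 : (a ^ 2) % 9 = 1 ∨ (a ^ 2) % 9 = 4 ∨ (a ^ 2) % 9 = 7 := by
        have h1 : a % 9 = 1 ∨ a % 9 = 2 ∨ a % 9 = 4 ∨ a % 9 = 5 ∨ a % 9 = 7 ∨ a % 9 = 8 := by omega
        rw [pow_two, Int.mul_emod]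
        rcases h1 with h | h | h | h | h | h <;> rw [h] <;> norm_num
      rcases ha3 with h | h | h
      · refine ⟨3 * N + 2, by omega, by omega, Or.inr ?_⟩
        have : a ^ 2 * 4 ^ (3 * N + 2) = 9 * (16 * k * a ^ 2) + 16 * a ^ 2 := by
          rw [pow_add, hk]; ring
        omega
      · refine ⟨3 * N + 1, by omega, by omega, Or.inr ?_⟩
        have : a ^ 2 * 4 ^ (3 * N + 1) = 9 * (4 * k * a ^ 2) + 4 * a ^ 2 := by
          rw [pow_add, hk]; ring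
        omega
      · refine ⟨3 * N + 3, by omega, by omega, Or.inr ?_⟩
        have : a ^ 2 * 4 ^ (3 * N + 3) = 9 * (64 * k * a ^ 2) + 64 * a ^ 2 := by
          rw [pow_add, hk]; ring
        omega
  refine ⟨-4 * (2 ^ j) ^ 2 * (a ^ 2 * (2 ^ j) ^ 2 + 2), ⟨?_, ?_⟩, ?_⟩
  · apply loc_odd (by omega)
    · rcases h9 with h9 | h9
      · exact Or.inl h9
      · right
        have h1 : a ^ 2 * ((2 : ℤ) ^ j) ^ 2 = a ^ 2 * 4 ^ j := by
          rw [← pow_mul, mul_comm j 2, pow_mul]; norm_num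
        have h2 : (9 : ℤ) ∣ a ^ 2 * (2 ^ j) ^ 2 + 2 := by rw [h1]; omega
        exact Int.emod_eq_zero_of_dvd (dvd_mul_of_dvd_right h2 _)
    · exact ⟨-((2 ^ j) ^ 2 * (a ^ 2 * (2 ^ j) ^ 2 + 2)), by ring⟩
  · rintro ⟨x, y, z, h⟩
    exact no_solution_pow ha h8 hj1 x y z h
  · apply b_lt
    · have := lt_two_pow' j
      omega
    · positivity

/-- case (B) -/
theorem caseB {a : ℤ} (ha : 0 < a) (h8 : a % 8 = 3 ∨ a % 8 = 5) (h3 : ¬ (3 : ℤ) ∣ a) :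
    (Fail a).Infinite := by
  apply inf_of
  intro N
  have hdec : ∀ a x y z : ZMod 3, a ≠ 0 → x ^ 2 + y ^ 2 + z ^ 2 - a * x * y * z = 0 →
      x = 0 ∧ y = 0 ∧ z = 0 := by decide
  have hdesc : ∀ x y z b : ℤ, x ^ 2 + y ^ 2 + z ^ 2 - a * x * y * z = 3 * b →
      (3 : ℤ) ∣ x ∧ (3 : ℤ) ∣ y ∧ (3 : ℤ) ∣ z := by
    intro x y z b h
    have h1 := congrArg (Int.cast : ℤ → ZMod 3) h
    push_cast at h1
    have h30 : (3 : ZMod 3) = 0 := by decide
    rw [h30, zero_mul] at h1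
    have ha0 : (a : ZMod 3) ≠ 0 := by
      intro h0
      exact h3 (by exact_mod_cast (ZMod.intCast_zmod_eq_zero_iff_dvd a 3).mp h0)
    obtain ⟨h4, h5, h6⟩ := hdec a x y z ha0 h1
    refine ⟨?_, ?_, ?_⟩
    · exact_mod_cast (ZMod.intCast_zmod_eq_zero_iff_dvd x 3).mp h4
    · exact_mod_cast (ZMod.intCast_zmod_eq_zero_iff_dvd y 3).mp h5
    · exact_mod_cast (ZMod.intCast_zmod_eq_zero_iff_dvd z 3).mp h6
  refine ⟨-4 * (2 ^ (N + 1)) ^ 2 * (9 * ((3 * a) ^ 2 * (2 ^ (N + 1)) ^ 2 + 2)), ⟨?_, ?_⟩, ?_⟩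
  · apply loc_odd (by omega)
    · right
      apply Int.emod_eq_zero_of_dvd
      exact ⟨-4 * (2 ^ (N + 1)) ^ 2 * ((3 * a) ^ 2 * (2 ^ (N + 1)) ^ 2 + 2), by ring⟩
    · exact ⟨-((2 ^ (N + 1)) ^ 2 * (9 * ((3 * a) ^ 2 * (2 ^ (N + 1)) ^ 2 + 2))), by ring⟩
  · rintro ⟨x, y, z, h⟩
    obtain ⟨⟨x', hx⟩, ⟨y', hy⟩, ⟨z', hz⟩⟩ := hdesc x y z
      (-4 * (2 ^ (N + 1)) ^ 2 * (3 * ((3 * a) ^ 2 * (2 ^ (N + 1)) ^ 2 + 2))) (by rw [h]; ring)
    apply no_solution_pow (g := 3 * a) (by omega) (by omega) (j := N + 1) (by omega) x' y' z'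
    unfold Sol
    rw [hx, hy, hz] at h
    have h9 : (9 : ℤ) * (x' ^ 2 + y' ^ 2 + z' ^ 2 - 3 * a * x' * y' * z') =
        9 * (-4 * (2 ^ (N + 1)) ^ 2 * ((3 * a) ^ 2 * (2 ^ (N + 1)) ^ 2 + 2)) := by
      linear_combination h
    exact mul_left_cancel₀ (by norm_num) h9
  · apply b_lt
    · have := lt_two_pow' (N + 1)
      push_cast at this
      omega
    · positivity

/-- case (C) -/
theorem caseC {a g : ℤ} {p v : ℕ} (ha : 0 < a) (h8 : a % 8 = 3 ∨ a % 8 = 5) (h3 : (3 : ℤ) ∣ a)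
    (hp : p.Prime) (hp8 : p % 8 = 3) (hv : Odd v) (hag : a = (p : ℤ) ^ v * g)
    (hpg : ¬ (p : ℤ) ∣ g) : (Fail a).Infinite := by
  have hp0 : (0 : ℤ) < (p : ℤ) ^ v := by
    have := hp.pos
    positivity
  have hg0 : 0 < g := (pos_iff_pos_of_mul_pos (by rw [← hag]; exact ha)).mp hp0
  have hpv : ((p : ℤ) ^ v) % 8 = 3 := by
    obtain ⟨k, rfl⟩ := hv
    have hp' : (p : ℤ) % 8 = 3 := by omega
    have h9 : ∀ k : ℕ, ((p : ℤ) ^ (2 * k)) % 8 = 1 := by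
      intro k
      induction k with
      | zero => norm_num
      | succ k ih =>
        have h10 : ((p : ℤ) ^ 2) % 8 = 1 := by
          rw [pow_two, Int.mul_emod, hp']; norm_num
        rw [mul_add, mul_one, pow_add, Int.mul_emod, ih, h10]
        norm_num
    rw [pow_succ, Int.mul_emod, h9 k, hp']
    norm_num
  have hg8 : g % 8 = 1 ∨ g % 8 = 7 := by
    rw [hag, Int.mul_emod, hpv] at h8
    have h1 : g % 8 = 0 ∨ g % 8 = 1 ∨ g % 8 = 2 ∨ g % 8 = 3 ∨ g % 8 = 4 ∨ g % 8 = 5 ∨ g % 8 = 6 ∨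
      g % 8 = 7 := by omega
    rcases h1 with h | h | h | h | h | h | h | h <;> rw [h] at h8 <;>
      first | (exfalso; norm_num at h8; done) | omega
  apply inf_of
  intro N
  obtain ⟨l, hlN, hl, hl8', c, hc⟩ := finC hp hp8 v hpg N
  have hl8 : l % 8 = 1 ∨ l % 8 = 7 := Or.inl hl8'
  have hP0 : (0 : ℤ) < (p : ℤ) ^ (2 * v) := by
    have := hp.pos
    positivity
  have hc0 : 0 < c := by
    have h1 : 0 < (p : ℤ) ^ (2 * v) * c := by rw [← hc]; positivity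
    exact (pos_iff_pos_of_mul_pos h1).mp hP0
  refine ⟨-4 * (2 * l) ^ 2 * c, ⟨?_, ?_⟩, ?_⟩
  · apply loc_odd (by omega)
    · exact Or.inl h3
    · exact ⟨-((2 * l) ^ 2 * c), by ring⟩
  · rintro ⟨x, y, z, h⟩
    apply no_solution_ell hg0 hg8 hl hl8 ((p : ℤ) ^ v * x) ((p : ℤ) ^ v * y) ((p : ℤ) ^ v * z)
    unfold Sol
    have e1 : (p : ℤ) ^ (2 * v) = ((p : ℤ) ^ v) ^ 2 := by rw [mul_comm, pow_mul]
    have e2 : g ^ 2 * (2 * (l : ℤ)) ^ 2 + 2 = (p : ℤ) ^ (2 * v) * c := by rw [← hc]; ring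
    rw [e2, e1]
    rw [hag] at h
    linear_combination ((p : ℤ) ^ v) ^ 2 * h
  · apply b_lt _ hc0
    have : (N : ℤ) < l := by exact_mod_cast hlN
    omega

/-- the exponent and the prime-to-`p` part -/
theorem exists_val {a : ℤ} (ha : a ≠ 0) {p : ℕ} (hp : p.Prime) :
    ∃ g : ℤ, a = (p : ℤ) ^ (padicValInt p a) * g ∧ ¬ (p : ℤ) ∣ g := by
  have : Fact p.Prime := ⟨hp⟩
  obtain ⟨e, n', h1, h2⟩ := Nat.exists_eq_pow_mul_and_not_dvd (Int.natAbs_ne_zero.mpr ha) p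
    hp.ne_one
  have hn' : n' ≠ 0 := by
    rintro rfl
    exact h1 (dvd_zero _)
  have hv : padicValInt p a = e := by
    unfold padicValInt
    rw [h2, padicValNat.mul (pow_ne_zero _ hp.ne_zero) hn', padicValNat.prime_pow,
      padicValNat.eq_zero_of_not_dvd h1, add_zero]
  rw [hv]
  rcases Int.natAbs_eq a with h | h
  · refine ⟨n', ?_, ?_⟩
    · rw [h, h2]; push_cast; rfl
    · intro h3; exact h1 (by exact_mod_cast h3)
  · refine ⟨-n', ?_, ?_⟩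
    · rw [h, h2]; push_cast; ring
    · intro h3; exact h1 (by exact_mod_cast (dvd_neg.mp h3))

theorem main_pos {a : ℤ} (ha : 0 < a) (ho : a % 2 = 1)
    (h : ¬ ((a % 8 = 3 ∨ a % 8 = 5) ∧ (9 : ℤ) ∣ a ∧
      ∀ p : ℕ, p.Prime → p % 8 = 3 → Even (padicValInt p a))) : (Fail a).Infinite := by
  by_cases h8 : a % 8 = 1 ∨ a % 8 = 7
  · exact caseA ha h8
  · have h8' : a % 8 = 3 ∨ a % 8 = 5 := by omega
    by_cases h3 : (3 : ℤ) ∣ a
    · by_cases h9 : (9 : ℤ) ∣ a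
      · have h1 : ∃ p : ℕ, p.Prime ∧ p % 8 = 3 ∧ ¬ Even (padicValInt p a) := by
          by_contra hne
          apply h
          refine ⟨h8', h9, ?_⟩
          intro p hp hp8
          by_contra h2
          exact hne ⟨p, hp, hp8, h2⟩
        obtain ⟨p, hp, hp8, hev⟩ := h1
        obtain ⟨g, hg, hpg⟩ := exists_val ha.ne' hp
        exact caseC ha h8' h3 hp hp8 (Nat.not_even_iff_odd.mp hev) hg hpg
      · obtain ⟨g, hg⟩ := h3
        refine caseC (p := 3) (v := 1) (g := g) ha h8' ⟨g, hg⟩ Nat.prime_three (by norm_num)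
          odd_one ?_ ?_
        · rw [hg]; norm_num
        · intro h2
          apply h9
          obtain ⟨k, hk⟩ := h2
          exact ⟨k, by rw [hg, hk]; push_cast; ring⟩
    · exact caseB ha h8' h3

/-- Hasse failures for all nonzero `a` outside a set of density zero -/
theorem main (a : ℤ) (ha : a ≠ 0)
    (h : ¬ ((a % 8 = 3 ∨ a % 8 = 5) ∧ (9 : ℤ) ∣ a ∧
      ∀ p : ℕ, p.Prime → p % 8 = 3 → Even (padicValInt p a))) :
    {b : ℤ | (∀ m : ℕ, 0 < m →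
        ∃ x y z : ℤ, (m : ℤ) ∣ x ^ 2 + y ^ 2 + z ^ 2 - a * x * y * z - b) ∧
      ¬ ∃ x y z : ℤ, x ^ 2 + y ^ 2 + z ^ 2 - a * x * y * z = b}.Infinite := by
  rcases Int.emod_two_eq_zero_or_one a with ho | ho
  · exact Pool.Agent.H8.HasseFailures.main a ha (Int.even_iff.mpr ho)
  · change (Fail a).Infinite
    rcases lt_or_gt_of_ne ha with hneg | hpos
    · rw [← Fail_neg]
      apply main_pos (by omega) (by omega)
      rintro ⟨h1, h2, h3⟩
      apply h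
      refine ⟨by omega, by simpa using h2, ?_⟩
      intro p hp hp8
      have := h3 p hp hp8
      unfold padicValInt at this ⊢
      rwa [Int.natAbs_neg] at this
    · exact main_pos hpos ho h

end Pool.Agent.HFO
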