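import Pool.Agent.HFO.Kay

/-!
# HFO/First : the first formula
-/

set_option autoImplicit false

namespace Pool.Agent.HFO

theorem sq_mod8 {a : ℤ} (h : a % 2 = 1) : ∃ s : ℤ, a ^ 2 = 8 * s + 1 := by
  obtain ⟨b, hb⟩ : ∃ b : ℤ, a = 2 * b + 1 := ⟨a / 2, by omega⟩
  obtain ⟨c, hc⟩ : ∃ c : ℤ, b * (b + 1) = 2 * c := by
    obtain ⟨c, hc⟩ := Int.even_mul_succ_self b
    exact ⟨c, by rw [hc]; ring⟩
  exact ⟨c, by rw [hb]; linear_combination 4 * hc⟩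

theorem four_of_sq {p : ℕ} (hp : p.Prime) (h2 : p % 2 = 1) {a b : ℤ}
    (h : (p : ℤ) ∣ a ^ 2 + b ^ 2) (hb : ¬ (p : ℤ) ∣ b) : p % 4 = 1 := by
  have : Fact p.Prime := ⟨hp⟩
  have h3 : p % 4 ≠ 3 := by
    apply ZMod.mod_four_ne_three_of_sq_eq_neg_sq' (p := p) (x := (a : ZMod p)) (y := (b : ZMod p))
    · intro h0
      exact hb ((ZMod.intCast_zmod_eq_zero_iff_dvd b p).mp h0)
    · have h1 := (ZMod.intCast_zmod_eq_zero_iff_dvd (a ^ 2 + b ^ 2) p).mpr h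
      push_cast at h1
      linear_combination h1
  omega

theorem odd_of_dvd {p : ℕ} (_ : p.Prime) {a : ℤ} (ha : a % 2 = 1) (h : (p : ℤ) ∣ a) :
    p % 2 = 1 := by
  rcases Nat.mod_two_eq_zero_or_one p with h1 | h1
  · exfalso
    obtain ⟨q, hq⟩ := Nat.dvd_of_mod_eq_zero h1
    obtain ⟨b, hb⟩ := h
    have : a = 2 * (q * b) := by rw [hb, hq]; push_cast; ring
    omega
  · exact h1

theorem not_dvd_two {p : ℕ} (hp : p.Prime) (h : p % 2 = 1) : ¬ (p : ℤ) ∣ 2 := by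
  intro h2
  have h3 : p ∣ 2 := by exact_mod_cast h2
  have h4 := (Nat.prime_dvd_prime_iff_eq hp Nat.prime_two).mp h3
  omega

/-- notation for the whole computation -/
structure Dat (g t x Y Z h q A B u P f w u1 A1 G : ℤ) : Prop where
  hx : 0 < x
  hxo : x % 2 = 1
  ht : t % 2 = 0
  ht0 : 0 < t
  hg : 0 < g
  hgo : g % 2 = 1
  hh : 0 < h
  hho : h % 2 = 1
  hY : 0 < Y
  hYo : Y % 2 = 1
  hZ : 0 < Z
  hZo : Z % 2 = 1
  hYZ : IsCoprime Y Z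
  hlt : Z < Y
  h4 : u % 4 = 0
  hxt : IsCoprime x (2 * t)
  heq : x ^ 2 + (h * Y) ^ 2 + (h * Z) ^ 2 - g * x * (h * Y) * (h * Z) =
    -4 * t ^ 2 * (g ^ 2 * t ^ 2 + 2)
  h3 : ∀ p : ℕ, p.Prime → p % 4 = 3 → ¬ (p : ℤ) ∣ q
  hq : q = g * x - 2
  hA : A = x + 2 * g * t ^ 2
  hB : B = x - 2 * g * t ^ 2
  hu : u = Y - Z
  hP : P = h ^ 2 * (Y * Z) + 4 * t ^ 2
  hf : f = g * x * Y * Z - Y ^ 2 - Z ^ 2
  hw : 0 < w
  hwu : u = w * u1
  hwA : A = w * A1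
  hc : IsCoprime u1 A1
  hG : G = A1 ^ 2 * (Y * Z) - 4 * t ^ 2 * u1 ^ 2

namespace Dat

variable {g t x Y Z h q A B u P f w u1 A1 G : ℤ} (d : Dat g t x Y Z h q A B u P f w u1 A1 G)

include d

theorem f1 : f = q * (Y * Z) - u ^ 2 := by rw [d.hf, d.hq, d.hu]; ring

theorem f2 : h ^ 2 * f = x ^ 2 + 4 * t ^ 2 * (g ^ 2 * t ^ 2 + 2) := by
  rw [d.hf]; linear_combination -d.heq

theorem f3 : h ^ 2 * f = A ^ 2 - 4 * t ^ 2 * q := by
  rw [d.f2, d.hA, d.hq]; ring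

theorem f4 : A ^ 2 + h ^ 2 * u ^ 2 = q * P := by
  have h1 := d.f3
  rw [d.f1] at h1
  rw [d.hP]; linear_combination -h1

theorem f5 : f * P = A ^ 2 * (Y * Z) - 4 * t ^ 2 * u ^ 2 := by
  have h1 := d.f3
  have h2 := d.f1
  rw [d.hP]
  linear_combination (Y * Z) * h1 + 4 * t ^ 2 * h2

theorem f6 : f * P = w ^ 2 * G := by
  rw [d.f5, d.hG]
  rw [d.hwu, d.hwA]; ring

theorem f7 : (u * B) ^ 2 + ((Y + Z) * A) ^ 2 = f * (h ^ 2 * (u ^ 2 + (Y + Z) ^ 2) + 16 * t ^ 2) := by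
  have h1 := d.f3
  have h2 : h ^ 2 * f = B ^ 2 + 4 * t ^ 2 * (q + 4) := by
    rw [d.f2, d.hB, d.hq]; ring
  have h3 := d.f1
  have h4 : f = (q + 4) * (Y * Z) - (Y + Z) ^ 2 := by rw [d.hf, d.hq]; ring
  have h5 : u ^ 2 * (q + 4) - (Y + Z) ^ 2 * q = -4 * f := by
    linear_combination (q + 4) * h3 - q * h4
  linear_combination (-u ^ 2) * h2 - (Y + Z) ^ 2 * h1 - 4 * t ^ 2 * h5

theorem f8 : A ^ 2 + B ^ 2 = 2 * (h ^ 2 * f) - 16 * t ^ 2 := by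
  rw [d.f2, d.hA, d.hB]; ring

theorem Ao : A % 2 = 1 := by
  have h1 := d.hA
  have h2 := d.hxo
  have : A = x + 2 * (g * t ^ 2) := by rw [h1]; ring
  omega

theorem wo : w % 2 = 1 := by
  have h1 := d.Ao
  rcases Int.emod_two_eq_zero_or_one w with h | h
  · exfalso
    obtain ⟨v, hv⟩ := Int.dvd_of_emod_eq_zero h
    have : A = 2 * (v * A1) := by rw [d.hwA, hv]; ring
    omega
  · exact h

theorem fo : ∃ s : ℤ, f = 8 * s + 1 := by
  obtain ⟨a, ha⟩ := sq_mod8 d.hho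
  obtain ⟨b, hb⟩ := sq_mod8 d.hxo
  obtain ⟨t', ht'⟩ := Int.dvd_of_emod_eq_zero d.ht
  have h1 := d.f2
  refine ⟨b + 4 * t' ^ 2 + 2 * t' ^ 2 * (g ^ 2 * t ^ 2) - a * f, ?_⟩
  rw [ha, hb] at h1
  have h2 : 4 * t ^ 2 = 16 * t' ^ 2 := by rw [ht']; ring
  linear_combination h1 + (g ^ 2 * t ^ 2 + 2) * h2

theorem f_pos : 0 < f := by
  have h1 := d.f2
  have h2 : 0 < h ^ 2 * f := by
    rw [h1]
    have := d.hx
    positivity
  exact (pos_iff_pos_of_mul_pos h2).mp (by have := d.hh; positivity)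

theorem P_pos : 0 < P := by
  rw [d.hP]
  have := d.hh
  have := d.hY
  have := d.hZ
  positivity

theorem G_pos : 0 < G := by
  have h1 := d.f6
  have h2 : 0 < w ^ 2 * G := by
    rw [← h1]; exact mul_pos d.f_pos d.P_pos
  exact (pos_iff_pos_of_mul_pos h2).mp (by have := d.hw; positivity)

theorem YZ4 : (Y * Z) % 4 = 1 := by
  obtain ⟨k, hk⟩ := Int.dvd_of_emod_eq_zero d.h4
  obtain ⟨b, hb⟩ := sq_mod8 d.hYo
  have h1 := d.hu
  have h2 : Z = Y - 4 * k := by omega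
  have : Y * Z = 4 * (2 * b - k * Y) + 1 := by
    rw [h2]; linear_combination hb
  omega

theorem G8 : ∃ s : ℤ, G = Y * Z + 8 * s := by
  have hA1 : A1 % 2 = 1 := by
    have h1 := d.Ao
    rcases Int.emod_two_eq_zero_or_one A1 with h | h
    · exfalso
      obtain ⟨v, hv⟩ := Int.dvd_of_emod_eq_zero h
      have : A = 2 * (w * v) := by rw [d.hwA, hv]; ring
      omega
    · exact h
  obtain ⟨a, ha⟩ := sq_mod8 hA1
  obtain ⟨t', ht'⟩ := Int.dvd_of_emod_eq_zero d.ht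
  refine ⟨a * (Y * Z) - 2 * t' ^ 2 * u1 ^ 2, ?_⟩
  rw [d.hG, ha, ht']; ring

theorem P4 : P % 4 = 1 := by
  obtain ⟨a, ha⟩ := sq_mod8 d.hho
  have h1 := d.YZ4
  have : P = Y * Z + 4 * (2 * a * (Y * Z) + t ^ 2) := by
    rw [d.hP, ha]; ring
  omega

/-- primes of `w` -/
theorem F1 {p : ℕ} (hp : p.Prime) (hd : (p : ℤ) ∣ w) :
    p % 4 = 1 ∧ ¬ (p : ℤ) ∣ Y ∧ ¬ (p : ℤ) ∣ t ∧ (p : ℤ) ∣ u ∧ (p : ℤ) ∣ A := by
  have hpr : Prime (p : ℤ) := Nat.prime_iff_prime_int.mp hp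
  have hpu : (p : ℤ) ∣ u := by rw [d.hwu]; exact dvd_mul_of_dvd_left hd _
  have hpA : (p : ℤ) ∣ A := by rw [d.hwA]; exact dvd_mul_of_dvd_left hd _
  have ho := odd_of_dvd hp d.wo hd
  have hpY : ¬ (p : ℤ) ∣ Y := by
    intro h1
    apply hpr.not_isUnit
    apply d.hYZ.isUnit_of_dvd' h1
    have : Z = Y - u := by rw [d.hu]; ring
    rw [this]
    exact dvd_sub h1 hpu
  have hpt : ¬ (p : ℤ) ∣ t := by
    intro h1
    apply hpr.not_isUnit
    apply d.hxt.isUnit_of_dvd' _ (dvd_mul_of_dvd_right h1 _)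
    have : x = A - 2 * g * t * t := by rw [d.hA]; ring
    rw [this]
    exact dvd_sub hpA (dvd_mul_of_dvd_right h1 _)
  refine ⟨?_, hpY, hpt, hpu, hpA⟩
  have h1 : (p : ℤ) ∣ q * P := by
    rw [← d.f4]
    exact dvd_add (dvd_pow hpA two_ne_zero) (dvd_mul_of_dvd_right (dvd_pow hpu two_ne_zero) _)
  rcases hpr.dvd_or_dvd h1 with h2 | h2
  · have h3 : p % 4 ≠ 3 := fun h => d.h3 p hp h h2
    omega
  · apply four_of_sq hp ho (a := h * Y) (b := 2 * t)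
    · have : (h * Y) ^ 2 + (2 * t) ^ 2 = P + h ^ 2 * Y * u := by
        rw [d.hP, d.hu]; ring
      rw [this]
      exact dvd_add h2 (dvd_mul_of_dvd_right hpu _)
    · intro h3
      rcases hpr.dvd_or_dvd h3 with h4 | h4
      · exact not_dvd_two hp ho h4
      · exact hpt h4

/-- the multiplicative function -/
theorem F2 {p : ℕ} (hp : p.Prime) (hd : (p : ℤ) ∣ P) :
    (if (p : ℤ) ∣ w then JJ (t * Y) p else JJ (2 * (u * A)) p) = JJ h p := by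
  have hpr : Prime (p : ℤ) := Nat.prime_iff_prime_int.mp hp
  have hPo : P % 2 = 1 := by have := d.P4; omega
  have ho := odd_of_dvd hp hPo hd
  have hp2 := not_dvd_two hp ho
  have hph : ¬ (p : ℤ) ∣ h := by
    intro h1
    have h2 : (p : ℤ) ∣ (2 * t) ^ 2 := by
      have : (2 * t) ^ 2 = P - h * (h * (Y * Z)) := by rw [d.hP]; ring
      rw [this]
      exact dvd_sub hd (dvd_mul_of_dvd_left h1 _)
    have h3 := hpr.dvd_of_dvd_pow h2
    apply hpr.not_isUnit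
    apply d.hxt.isUnit_of_dvd' _ h3
    have h4 : (p : ℤ) ∣ x ^ 2 := by
      have : x ^ 2 = h * (h * f) - (2 * t) * (2 * t * (g ^ 2 * t ^ 2 + 2)) := by
        linear_combination -d.f2
      rw [this]
      exact dvd_sub (dvd_mul_of_dvd_left h1 _) (dvd_mul_of_dvd_left h3 _)
    exact hpr.dvd_of_dvd_pow h4
  by_cases hpw : (p : ℤ) ∣ w
  · rw [if_pos hpw]
    obtain ⟨_, hpY, hpt, hpu, hpA⟩ := d.F1 hp hpw
    apply JJp_eq_of_sq' hp (c := 2) (r := h * Y + 2 * t) _ _ hph hp2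
    · have : (2 : ℤ) ^ 2 * (t * Y * h) - (h * Y + 2 * t) ^ 2 = -(P + h ^ 2 * Y * u) := by
        rw [d.hP, d.hu]; ring
      rw [this]
      exact (dvd_add hd (dvd_mul_of_dvd_right hpu _)).neg_right
    · intro h1
      rcases hpr.dvd_or_dvd h1 with h2 | h2
      · exact hpt h2
      · exact hpY h2
  · rw [if_neg hpw]
    have hqP : (p : ℤ) ∣ A ^ 2 + h ^ 2 * u ^ 2 := by
      rw [d.f4]; exact dvd_mul_of_dvd_right hd _
    have hnot : ¬ ((p : ℤ) ∣ u ∧ (p : ℤ) ∣ A) := by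
      rintro ⟨h1, h2⟩
      rw [d.hwu] at h1
      rw [d.hwA] at h2
      rcases hpr.dvd_or_dvd h1 with h3 | h3
      · exact hpw h3
      · rcases hpr.dvd_or_dvd h2 with h4 | h4
        · exact hpw h4
        · exact hpr.not_isUnit (d.hc.isUnit_of_dvd' h3 h4)
    have hpu : ¬ (p : ℤ) ∣ u := by
      intro h1
      apply hnot
      refine ⟨h1, ?_⟩
      have h2 : (p : ℤ) ∣ A ^ 2 := by
        have : A ^ 2 = (A ^ 2 + h ^ 2 * u ^ 2) - u * (h ^ 2 * u) := by ring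
        rw [this]
        exact dvd_sub hqP (dvd_mul_of_dvd_left h1 _)
      exact hpr.dvd_of_dvd_pow h2
    have hpA : ¬ (p : ℤ) ∣ A := by
      intro h1
      have h2 : (p : ℤ) ∣ (h * u) ^ 2 := by
        have : (h * u) ^ 2 = (A ^ 2 + h ^ 2 * u ^ 2) - A * A := by ring
        rw [this]
        exact dvd_sub hqP (dvd_mul_of_dvd_left h1 _)
      rcases hpr.dvd_or_dvd (hpr.dvd_of_dvd_pow h2) with h3 | h3
      · exact hph h3
      · exact hpu h3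
    apply JJp_eq_of_sq hp (r := A + h * u) _ _ hph
    · have : 2 * (u * A) * h - (A + h * u) ^ 2 = -(A ^ 2 + h ^ 2 * u ^ 2) := by ring
      rw [this]
      exact hqP.neg_right
    · intro h1
      rcases hpr.dvd_or_dvd h1 with h2 | h2
      · exact hp2 h2
      · rcases hpr.dvd_or_dvd h2 with h3 | h3
        · exact hpu h3
        · exact hpA h3

end Dat

end Pool.Agent.HFO
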