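import Pool.Agent.HFO.Base

/-!
# HFO/Kay : the degenerate symbol `(2 n, k)` when `2 n = D² + k (k - 8 t)`
-/

set_option autoImplicit false

namespace Pool.Agent.HFO

/-- `J(2|n)` for odd `n` of any sign -/
theorem JJ_two' {n : ℤ} (ho : n % 2 = 1) :
    JJ 2 n = if n % 8 = 1 ∨ n % 8 = 7 then 1 else -1 := by
  rcases lt_trichotomy n 0 with h | h | h
  · have h1 := JJ_two (n := -n) (by omega) (by omega)
    rw [JJ_neg_right] at h1
    rw [h1]
    by_cases h8 : n % 8 = 1 ∨ n % 8 = 7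
    · rw [if_pos h8, if_pos (by omega)]
    · rw [if_neg h8, if_neg (by omega)]
  · omega
  · exact JJ_two h ho

/-- variant with a square factor -/
theorem JJp_eq_of_sq' {p : ℕ} (hp : p.Prime) {a b c r : ℤ}
    (h : (p : ℤ) ∣ c ^ 2 * (a * b) - r ^ 2)
    (ha : ¬ (p : ℤ) ∣ a) (hb : ¬ (p : ℤ) ∣ b) (hc : ¬ (p : ℤ) ∣ c) : JJ a p = JJ b p := by
  have h1 : Prime (p : ℤ) := Nat.prime_iff_prime_int.mp hp
  have h2 : ¬ (p : ℤ) ∣ a * b := by
    intro hh
    rcases h1.dvd_or_dvd hh with h | h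
    · exact ha h
    · exact hb h
  have h4 : ¬ (p : ℤ) ∣ c ^ 2 * (a * b) := by
    intro hh
    rcases h1.dvd_or_dvd hh with h | h
    · exact hc (h1.dvd_of_dvd_pow h)
    · exact h2 h
  have h3 := JJp_of_sq hp h h4
  rw [JJ_sq_mul (cop_of_not_dvd hp hc), JJ_mul_left] at h3
  rcases JJp_pm hp ha with ha | ha <;> rcases JJp_pm hp hb with hb | hb <;> rw [ha, hb] at h3 ⊢ <;>
    norm_num at h3


theorem decomp : ∀ (N : ℕ) (D k : ℤ), k ≠ 0 → k.natAbs ≤ N →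
    ∃ m D1 k1 : ℤ, 0 < m ∧ D = m * D1 ∧ k = m ^ 2 * k1 ∧
      ∀ p : ℕ, p.Prime → (p : ℤ) ∣ D1 → ¬ (p : ℤ) ^ 2 ∣ k1 := by
  intro N
  induction N with
  | zero =>
    intro D k hk hN
    exact absurd (Int.natAbs_eq_zero.mp (Nat.le_zero.mp hN)) hk
  | succ N ih =>
    intro D k hk hN
    by_cases h : ∃ p : ℕ, p.Prime ∧ (p : ℤ) ∣ D ∧ (p : ℤ) ^ 2 ∣ k
    · obtain ⟨p, hp, ⟨D', hD⟩, ⟨k', hk'⟩⟩ := h
      have hk0 : k' ≠ 0 := by
        rintro rfl
        exact hk (by rw [hk', mul_zero])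
      have hlt : k'.natAbs ≤ N := by
        have h1 : k.natAbs = p ^ 2 * k'.natAbs := by
          rw [hk', Int.natAbs_mul, Int.natAbs_pow, Int.natAbs_natCast]
        have h2 : 2 ≤ p := hp.two_le
        have h3 : 0 < k'.natAbs := Int.natAbs_pos.mpr hk0
        have h4 : 4 ≤ p ^ 2 := by nlinarith
        nlinarith
      obtain ⟨m, D1, k1, hm, e1, e2, e3⟩ := ih D' k' hk0 hlt
      refine ⟨p * m, D1, k1, ?_, ?_, ?_, e3⟩
      · have : (0 : ℤ) < p := by exact_mod_cast hp.pos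
        positivity
      · rw [hD, e1]; ring
      · rw [hk', e2]; ring
    · refine ⟨1, D, k, one_pos, by ring, by ring, ?_⟩
      intro p hp h1 h2
      exact h ⟨p, hp, h1, h2⟩

/-- product of primes `1` modulo `4` -/
theorem mod_four_one {a : ℤ} (ha : 0 < a) (ho : a % 2 = 1)
    (h : ∀ p : ℕ, p.Prime → (p : ℤ) ∣ a → p % 4 = 1) : a % 4 = 1 := by
  have h1 : JJ (-1) a = 1 := by
    rw [← CC_JJ]
    apply CC_one
    intro p hp hd
    apply JJ_negone_one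
    · exact_mod_cast hp.pos
    · have := h p hp hd
      omega
  rw [JJ_negone ha ho] at h1
  by_contra hne
  rw [if_neg hne] at h1
  norm_num at h1

/-- odd prime exponent in a sum of two squares -/
theorem not_three {n r s m b : ℤ} (hn : n = r ^ 2 + s ^ 2) (hn0 : n ≠ 0) {p : ℕ} (hp : p.Prime)
    (h : n = m ^ 2 * (p * b)) (hb : ¬ (p : ℤ) ∣ b) : p % 4 ≠ 3 := by
  intro h3
  have hN : n.natAbs = r.natAbs ^ 2 + s.natAbs ^ 2 := by
    have : (n.natAbs : ℤ) = (r.natAbs : ℤ) ^ 2 + (s.natAbs : ℤ) ^ 2 := by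
      rw [Int.natCast_natAbs, Int.natCast_natAbs, Int.natCast_natAbs, sq_abs, sq_abs, ← hn,
        abs_of_nonneg (by rw [hn]; positivity)]
    exact_mod_cast this
  have key := (Nat.eq_sq_add_sq_iff (n := n.natAbs)).mp ⟨_, _, hN⟩
  have hpn : p ∈ n.natAbs.primeFactors := by
    rw [Nat.mem_primeFactors]
    refine ⟨hp, ?_, Int.natAbs_ne_zero.mpr hn0⟩
    rw [← Int.natCast_dvd, h]
    exact Dvd.intro (m ^ 2 * b) (by ring)
  have he := key p hpn h3
  have : Fact p.Prime := ⟨hp⟩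
  have hm0 : m.natAbs ≠ 0 := by
    intro hm
    rw [Int.natAbs_eq_zero] at hm
    apply hn0
    rw [h, hm]
    ring
  have hb0 : b.natAbs ≠ 0 := by
    intro hm
    rw [Int.natAbs_eq_zero] at hm
    exact hb (by rw [hm]; exact dvd_zero _)
  have hN2 : n.natAbs = m.natAbs ^ 2 * (p * b.natAbs) := by
    rw [h, Int.natAbs_mul, Int.natAbs_mul, Int.natAbs_pow, Int.natAbs_natCast]
  have hv : padicValNat p n.natAbs = 2 * padicValNat p m.natAbs + 1 := by
    have hv0 : padicValNat p b.natAbs = 0 := by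
      apply padicValNat.eq_zero_of_not_dvd
      rw [← Int.natCast_dvd]
      exact hb
    rw [hN2, padicValNat.mul (pow_ne_zero 2 hm0) (mul_ne_zero hp.ne_zero hb0),
      padicValNat.pow, padicValNat.mul hp.ne_zero hb0, padicValNat_self, hv0]
  rw [hv] at he
  have := (Nat.even_add_one.mp he)
  exact this (even_two_mul _)

/-- the degenerate symbol -/
theorem kay {n D k t r s : ℤ} (K : ℕ → ℤ) (hn : 0 < n) (hn8 : n % 8 = 1) (hk : 0 < k)
    (hko : k % 2 = 1) (hnt : IsCoprime n (2 * t)) (heq : 2 * n = D ^ 2 + k * (k - 8 * t))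
    (hrs : n = r ^ 2 + s ^ 2)
    (hK1 : ∀ p : ℕ, p.Prime → (p : ℤ) ∣ n → ¬ (p : ℤ) ∣ k → K p = JJ k p)
    (hK2 : ∀ p : ℕ, p.Prime → (p : ℤ) ∣ n → (p : ℤ) ∣ k → K p = JJ (2 * t) p) :
    CC K n = JJ 2 k := by
  obtain ⟨m, D1, k1, hm, hD, hk1, hmax⟩ := decomp k.natAbs D k hk.ne' le_rfl
  have hpr : ∀ p : ℕ, p.Prime → Prime (p : ℤ) := fun p hp => Nat.prime_iff_prime_int.mp hp
  have hno : n % 2 = 1 := by omega
  have hm0 : m ≠ 0 := hm.ne'
  have hmo : m % 2 = 1 := by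
    rcases Int.emod_two_eq_zero_or_one m with h | h
    · exfalso
      obtain ⟨m', hm'⟩ := Int.dvd_of_emod_eq_zero h
      have : k = 2 * (m' * (2 * m') * k1) := by rw [hk1, hm']; ring
      omega
    · exact h
  -- primes of `n` are not primes of `2 t`
  have hn2t : ∀ p : ℕ, p.Prime → (p : ℤ) ∣ n → ¬ (p : ℤ) ∣ 2 * t := by
    intro p hp h1 h2
    exact (hpr p hp).not_isUnit (hnt.isUnit_of_dvd' h1 h2)
  -- `m² ∣ n`
  have h2n : 2 * n = m ^ 2 * (D1 ^ 2 + k1 * (k - 8 * t)) := by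
    rw [heq, hD]
    linear_combination (k - 8 * t) * hk1
  obtain ⟨n1, hn1⟩ : m ^ 2 ∣ n := by
    have h1 : IsCoprime (m ^ 2) 2 := by
      apply IsCoprime.pow_left
      refine ⟨1, -(m / 2), ?_⟩
      omega
    exact h1.dvd_of_dvd_mul_left ⟨_, h2n⟩
  have h2n1 : 2 * n1 = D1 ^ 2 + k1 * (k - 8 * t) := by
    have h1 : m ^ 2 * (2 * n1) = m ^ 2 * (D1 ^ 2 + k1 * (k - 8 * t)) := by
      rw [← h2n, hn1]; ring
    exact mul_left_cancel₀ (pow_ne_zero 2 hm0) h1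
  have hk10 : 0 < k1 := by
    by_contra hneg
    have : m ^ 2 * k1 ≤ 0 := mul_nonpos_of_nonneg_of_nonpos (sq_nonneg m) (not_lt.mp hneg)
    omega
  -- `a`
  obtain ⟨a, ha⟩ : ∃ a : ℤ, a = Int.gcd D1 k1 := ⟨_, rfl⟩
  have ha0 : 0 < a := by
    rw [ha]
    exact_mod_cast Int.gcd_pos_of_ne_zero_right D1 hk10.ne'
  obtain ⟨D2, hD2⟩ : a ∣ D1 := by rw [ha]; exact Int.gcd_dvd_left ..
  obtain ⟨k2, hk2⟩ : a ∣ k1 := by rw [ha]; exact Int.gcd_dvd_right ..
  have hcop : IsCoprime D2 k2 := by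
    rw [Int.isCoprime_iff_gcd_eq_one]
    have h1 : (Int.gcd D1 k1 : ℤ) = a * Int.gcd D2 k2 := by
      rw [hD2, hk2, Int.gcd_mul_left]
      push_cast
      rw [abs_of_pos ha0]
    rw [← ha] at h1
    have h2 : (Int.gcd D2 k2 : ℤ) = 1 := by
      have h3 : a * (Int.gcd D2 k2 : ℤ) = a * 1 := by rw [← h1, mul_one]
      exact mul_left_cancel₀ ha0.ne' h3
    exact_mod_cast h2
  have hk20 : 0 < k2 := by
    by_contra hneg
    have : a * k2 ≤ 0 := mul_nonpos_of_nonneg_of_nonpos ha0.le (not_lt.mp hneg)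
    omega
  have hk' : k = m ^ 2 * (a * k2) := by rw [hk1, hk2]
  have hao : a % 2 = 1 := by
    rcases Int.emod_two_eq_zero_or_one a with h | h
    · exfalso
      obtain ⟨a', ha'⟩ := Int.dvd_of_emod_eq_zero h
      have : k = 2 * (m ^ 2 * (a' * k2)) := by rw [hk', ha']; ring
      omega
    · exact h
  have hk2o : k2 % 2 = 1 := by
    rcases Int.emod_two_eq_zero_or_one k2 with h | h
    · exfalso
      obtain ⟨a', ha'⟩ := Int.dvd_of_emod_eq_zero h
      have : k = 2 * (m ^ 2 * (a * a')) := by rw [hk', ha']; ring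
      omega
    · exact h
  obtain ⟨n2, hn2⟩ : a ∣ n1 := by
    have h1 : IsCoprime a 2 := by
      refine ⟨1, -(a / 2), ?_⟩
      omega
    apply h1.dvd_of_dvd_mul_left
    rw [h2n1, hD2, hk2]
    exact ⟨a * D2 ^ 2 + k2 * (k - 8 * t), by ring⟩
  have h2n2 : 2 * n2 = a * D2 ^ 2 + k2 * (k - 8 * t) := by
    have h1 : a * (2 * n2) = a * (a * D2 ^ 2 + k2 * (k - 8 * t)) := by
      have : a * (2 * n2) = 2 * n1 := by rw [hn2]; ring
      rw [this, h2n1, hD2, hk2]; ring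
    exact mul_left_cancel₀ ha0.ne' h1
  have hn' : n = m ^ 2 * (a * n2) := by rw [hn1, hn2]
  have hn20 : 0 < n2 := by
    by_contra hneg
    have h1 : a * n2 ≤ 0 := mul_nonpos_of_nonneg_of_nonpos ha0.le (not_lt.mp hneg)
    have : m ^ 2 * (a * n2) ≤ 0 := mul_nonpos_of_nonneg_of_nonpos (sq_nonneg m) h1
    omega
  have hn2o : n2 % 2 = 1 := by
    rcases Int.emod_two_eq_zero_or_one n2 with h | h
    · exfalso
      obtain ⟨a', ha'⟩ := Int.dvd_of_emod_eq_zero h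
      have : n = 2 * (m ^ 2 * (a * a')) := by rw [hn', ha']; ring
      omega
    · exact h
  have hdn : ∀ p : ℕ, (p : ℤ) ∣ n2 → (p : ℤ) ∣ n := by
    intro p h
    rw [hn']
    exact dvd_mul_of_dvd_right (dvd_mul_of_dvd_right h a) _
  have hdna : ∀ p : ℕ, (p : ℤ) ∣ a → (p : ℤ) ∣ n := by
    intro p h
    rw [hn']
    exact dvd_mul_of_dvd_right (dvd_mul_of_dvd_left h n2) _
  have hdka : ∀ p : ℕ, (p : ℤ) ∣ a → (p : ℤ) ∣ k := by
    intro p h
    rw [hk']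
    exact dvd_mul_of_dvd_right (dvd_mul_of_dvd_left h k2) _
  have hak2 : ∀ p : ℕ, p.Prime → (p : ℤ) ∣ a → ¬ (p : ℤ) ∣ k2 := by
    intro p hp h1 h2
    apply hmax p hp
    · rw [hD2]; exact dvd_mul_of_dvd_left h1 _
    · rw [hk2, pow_two]; exact mul_dvd_mul h1 h2
  have han2 : ∀ p : ℕ, p.Prime → (p : ℤ) ∣ a → ¬ (p : ℤ) ∣ n2 := by
    intro p hp h1 h2
    have h3 : (p : ℤ) ∣ k2 * (8 * t) := by
      have : k2 * (8 * t) = a * D2 ^ 2 + k2 * k - 2 * n2 := by rw [h2n2]; ring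
      rw [this]
      exact dvd_sub (dvd_add (dvd_mul_of_dvd_left h1 _) (dvd_mul_of_dvd_right (hdka p h1) _))
        (dvd_mul_of_dvd_right h2 _)
    rcases (hpr p hp).dvd_or_dvd h3 with h4 | h4
    · exact hak2 p hp h1 h4
    · apply hn2t p hp (hdna p h1)
      have h5 : (p : ℤ) ∣ (2 * t) * 2 ^ 2 := by
        have : (2 * t) * 2 ^ 2 = 8 * t := by ring
        rw [this]; exact h4
      rcases (hpr p hp).dvd_or_dvd h5 with h6 | h6
      · exact h6
      · exact dvd_mul_of_dvd_left ((hpr p hp).dvd_of_dvd_pow h6) _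
  have hk2n2 : ∀ p : ℕ, p.Prime → (p : ℤ) ∣ n2 → ¬ (p : ℤ) ∣ k2 := by
    intro p hp h1 h2
    have h3 : (p : ℤ) ∣ a * D2 ^ 2 := by
      have : a * D2 ^ 2 = 2 * n2 - k2 * (k - 8 * t) := by rw [h2n2]; ring
      rw [this]
      exact dvd_sub (dvd_mul_of_dvd_right h1 _) (dvd_mul_of_dvd_left h2 _)
    rcases (hpr p hp).dvd_or_dvd h3 with h4 | h4
    · exact hak2 p hp h4 h2
    · exact (hpr p hp).not_isUnit (hcop.isUnit_of_dvd' ((hpr p hp).dvd_of_dvd_pow h4) h2)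
  -- `a = 1` modulo `4`
  have ha4 : a % 4 = 1 := by
    apply mod_four_one ha0 hao
    intro p hp hd
    obtain ⟨a', ha'⟩ := hd
    have hodd : p % 2 = 1 := by
      rcases Nat.mod_two_eq_zero_or_one p with h | h
      · exfalso
        obtain ⟨q, hq⟩ := Nat.dvd_of_mod_eq_zero h
        have : a = 2 * (q * a') := by
          rw [ha', hq]; push_cast; ring
        omega
      · exact h
    have h3 : p % 4 ≠ 3 := by
      apply not_three hrs hn.ne' hp (m := m) (b := a' * n2)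
      · rw [hn', ha']; ring
      · intro h
        rcases (hpr p hp).dvd_or_dvd h with h | h
        · apply hmax p hp
          · rw [hD2, ha']; exact Dvd.intro (a' * D2) (by ring)
          · rw [hk2, ha', pow_two]
            exact dvd_mul_of_dvd_left (mul_dvd_mul_left _ h) _
        · exact han2 p hp ⟨a', ha'⟩ h
    omega
  have hmsq : m ^ 2 % 8 = 1 := by
    have h1 : m % 8 = 1 ∨ m % 8 = 3 ∨ m % 8 = 5 ∨ m % 8 = 7 := by omega
    rw [pow_two, Int.mul_emod]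
    rcases h1 with h | h | h | h <;> rw [h] <;> norm_num
  have hn24 : n2 % 4 = 1 := by
    have h1 : (a * n2) % 8 = 1 := by
      have h2 := hn8
      rw [hn', Int.mul_emod, hmsq, one_mul, Int.emod_emod] at h2
      exact h2
    have h3 : (a * n2) % 4 = 1 := by omega
    rw [Int.mul_emod, ha4, one_mul, Int.emod_emod] at h3
    exact h3
  -- the computation
  have hca : IsCoprime (2 * t) a := by
    apply cop_of_primes
    intro p hp h1 h2
    exact hn2t p hp (hdna p h2) h1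
  have hck2a : IsCoprime k2 a := by
    apply cop_of_primes
    intro p hp h1 h2
    exact hak2 p hp h2 h1
  have hKm : CC K m * CC K m = 1 := by
    apply CC_mulself
    intro p hp hd
    have h1 : (p : ℤ) ∣ n := by rw [hn']; exact dvd_mul_of_dvd_left (dvd_pow hd two_ne_zero) _
    have h2 : (p : ℤ) ∣ k := by rw [hk']; exact dvd_mul_of_dvd_left (dvd_pow hd two_ne_zero) _
    rw [hK2 p hp h1 h2]
    exact JJp_pm hp (hn2t p hp h1)
  have e1 : CC K n = CC K a * CC K n2 := by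
    rw [hn', pow_two, CC_mul K (mul_ne_zero hm0 hm0) (mul_ne_zero ha0.ne' hn20.ne'),
      CC_mul K hm0 hm0, hKm, one_mul, CC_mul K ha0.ne' hn20.ne']
  have e2 : CC K a = JJ (2 * t) a :=
    CC_eq_JJ fun p hp hd => hK2 p hp (hdna p hd) (hdka p hd)
  have e3 : CC K n2 = JJ (a * k2) n2 := by
    apply CC_eq_JJ
    intro p hp hd
    have hpa : ¬ (p : ℤ) ∣ a := fun h => han2 p hp h hd
    have hpk2 : ¬ (p : ℤ) ∣ k2 := hk2n2 p hp hd
    have hpak : ¬ (p : ℤ) ∣ a * k2 := by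
      intro h
      rcases (hpr p hp).dvd_or_dvd h with h | h
      · exact hpa h
      · exact hpk2 h
    by_cases hpk : (p : ℤ) ∣ k
    · rw [hK2 p hp (hdn p hd) hpk]
      have h2t := hn2t p hp (hdn p hd)
      have hp2 : ¬ (p : ℤ) ∣ 2 := fun h => h2t (dvd_mul_of_dvd_left h _)
      symm
      apply JJp_eq_of_sq' hp (c := 2) (r := a * D2) _ hpak h2t hp2
      have : (2 : ℤ) ^ 2 * (a * k2 * (2 * t)) - (a * D2) ^ 2 = a * (k2 * k) - 2 * a * n2 := by
        linear_combination a * h2n2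
      rw [this]
      exact dvd_sub (dvd_mul_of_dvd_right (dvd_mul_of_dvd_right hpk _) _)
        (dvd_mul_of_dvd_right hd _)
    · rw [hK1 p hp (hdn p hd) hpk]
      have hpm : ¬ (p : ℤ) ∣ m := by
        intro h
        apply hpk
        rw [hk']
        exact dvd_mul_of_dvd_left (dvd_pow h two_ne_zero) _
      rw [hk', JJ_sq_mul (cop_of_not_dvd hp hpm)]
  have e4 : JJ (a * k2) n2 = JJ n2 a * JJ n2 k2 := by
    rw [JJ_recip _ hn20 hn24, JJ_mul_right _ ha0.ne' hk20.ne']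
    rw [Int.mul_emod, hao, hk2o]
    norm_num
  have e5 : JJ 2 k2 * JJ n2 k2 = JJ a k2 := by
    rw [← JJ_mul_left, JJ_congr (b := D2 ^ 2 * a), JJ_sq_mul hcop]
    rw [h2n2]
    exact ⟨k - 8 * t, by ring⟩
  have e6 : JJ 2 a * JJ n2 a = JJ k2 a * JJ (2 * t) a := by
    rw [← JJ_mul_left, ← JJ_mul_left]
    have h2a : IsCoprime 2 a := by
      refine ⟨-(a / 2), 1, ?_⟩
      omega
    rw [← JJ_sq_mul (b := k2 * (2 * t)) h2a]
    have h1 : JJ (2 ^ 2 * (k2 * (2 * t))) a = JJ (-1 * (2 ^ 2 * (k2 * (2 * t)))) a := by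
      rw [JJ_mul_left (-1), JJ_negone_one ha0 ha4, one_mul]
    rw [h1]
    apply JJ_congr
    have : 2 * n2 - -1 * (2 ^ 2 * (k2 * (2 * t))) = a * D2 ^ 2 + k2 * k := by
      rw [h2n2]; ring
    rw [this]
    refine dvd_add (Dvd.intro _ rfl) (dvd_mul_of_dvd_right ?_ _)
    rw [hk']
    exact dvd_mul_of_dvd_right (Dvd.intro _ rfl) _
  have e7 : JJ k2 a = JJ a k2 := JJ_recip hk2o ha0 ha4
  have e8 : JJ 2 k = JJ 2 a * JJ 2 k2 := by
    have h2m : JJ 2 m * JJ 2 m = 1 := by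
      apply JJ_mulself
      refine ⟨-(m / 2), 1, ?_⟩
      omega
    rw [hk', pow_two, JJ_mul_right _ (mul_ne_zero hm0 hm0) (mul_ne_zero ha0.ne' hk20.ne'),
      JJ_mul_right _ hm0 hm0, h2m, one_mul, JJ_mul_right _ ha0.ne' hk20.ne']
  have s1 : JJ (2 * t) a * JJ (2 * t) a = 1 := JJ_mulself hca
  have s2 : JJ k2 a * JJ k2 a = 1 := JJ_mulself hck2a
  have s3 : JJ 2 a * JJ 2 a = 1 := by
    apply JJ_mulself
    refine ⟨-(a / 2), 1, ?_⟩
    omega
  have s4 : JJ 2 k2 * JJ 2 k2 = 1 := by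
    apply JJ_mulself
    refine ⟨-(k2 / 2), 1, ?_⟩
    omega
  rw [e1, e2, e3, e4, e8]
  have e5' : JJ n2 k2 = JJ 2 k2 * JJ a k2 := by
    rw [← e5, ← mul_assoc, s4, one_mul]
  have e6' : JJ n2 a = JJ 2 a * (JJ k2 a * JJ (2 * t) a) := by
    rw [← e6, ← mul_assoc, s3, one_mul]
  rw [e5', e6', ← e7]
  calc JJ (2 * t) a * (JJ 2 a * (JJ k2 a * JJ (2 * t) a) * (JJ 2 k2 * JJ k2 a))
      = (JJ (2 * t) a * JJ (2 * t) a) * (JJ k2 a * JJ k2 a) * (JJ 2 a * JJ 2 k2) := by ring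
    _ = JJ 2 a * JJ 2 k2 := by rw [s1, s2, one_mul, one_mul]

end Pool.Agent.HFO
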