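import Pool.Agent.HFO.Ell

/-!
# HFO/Reduce : reduction to positive all-odd solutions
-/

set_option autoImplicit false

namespace Pool.Agent.HFO

theorem Sol.swap {g t x y z : ℤ} (h : Sol g t x y z) : Sol g t x z y := by
  unfold Sol at h ⊢
  linear_combination h

theorem Sol.rot {g t x y z : ℤ} (h : Sol g t x y z) : Sol g t y z x := by
  unfold Sol at h ⊢
  linear_combination h

/-- `g x = 2` modulo `4` or odd -/
theorem not_four {g t x y z : ℤ} (hx : 0 < x) (hy : 0 < y) (hz : 0 < z) (h : Sol g t x y z) :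
    ¬ (4 : ℤ) ∣ x := by
  rintro ⟨m, hm⟩
  have heq : x ^ 2 + y ^ 2 + z ^ 2 - g * x * y * z = -4 * t ^ 2 * (g ^ 2 * t ^ 2 + 2) := h
  have hpos : 0 < g * x - 2 := by
    have h1 : 0 < (g * x - 2) * (y * z) := by
      have h2 : (g * x - 2) * (y * z) = x ^ 2 + (y - z) ^ 2 + 4 * t ^ 2 * (g ^ 2 * t ^ 2 + 2) := by
        linear_combination -heq
      rw [h2]
      positivity
    exact (pos_iff_pos_of_mul_pos h1).mpr (mul_pos hy hz)
  obtain ⟨k, hk⟩ : ∃ k : ℤ, k = g * m := ⟨_, rfl⟩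
  have hgx : g * x = 4 * k := by rw [hm, hk]; ring
  have h1 : (2 * k - 1) % 4 = 1 := by
    apply mod_four_one (by omega) (by omega)
    intro p hp hd
    have ho := odd_of_dvd hp (by omega : (2 * k - 1) % 2 = 1) hd
    have h2 : p % 4 ≠ 3 := by
      intro h3
      apply (no_three heq hp h3).1
      have : g * x - 2 = 2 * (2 * k - 1) := by rw [hgx]; ring
      rw [this]
      exact dvd_mul_of_dvd_right hd _
    omega
  have h2 : (2 * k + 1) % 4 = 1 := by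
    apply mod_four_one (by omega) (by omega)
    intro p hp hd
    have ho := odd_of_dvd hp (by omega : (2 * k + 1) % 2 = 1) hd
    have h2 : p % 4 ≠ 3 := by
      intro h3
      apply (no_three heq hp h3).2
      have : g * x + 2 = 2 * (2 * k + 1) := by rw [hgx]; ring
      rw [this]
      exact dvd_mul_of_dvd_right hd _
    omega
  omega

theorem odd_mul {a b : ℤ} (ha : a % 2 = 1) (hb : b % 2 = 1) : (a * b) % 2 = 1 := by
  rw [Int.mul_emod, ha, hb]; norm_num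

/-- not all even -/
theorem not_all_even {g t x y z : ℤ} (ht : t % 2 = 0) (hgo : g % 2 = 1)
    (hx : 0 < x) (hy : 0 < y) (hz : 0 < z) (h : Sol g t x y z)
    (hxe : x % 2 = 0) (hye : y % 2 = 0) (hze : z % 2 = 0) : False := by
  obtain ⟨x1, hx1⟩ := Int.dvd_of_emod_eq_zero hxe
  obtain ⟨y1, hy1⟩ := Int.dvd_of_emod_eq_zero hye
  obtain ⟨z1, hz1⟩ := Int.dvd_of_emod_eq_zero hze
  obtain ⟨s, hs⟩ := Int.dvd_of_emod_eq_zero ht
  have n1 := not_four hx hy hz h
  have h1 : x1 ^ 2 + y1 ^ 2 + z1 ^ 2 + 4 * (s ^ 2 * (g ^ 2 * t ^ 2 + 2)) =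
      2 * (g * x1 * y1 * z1) := by
    unfold Sol at h
    rw [hx1, hy1, hz1] at h
    have h2 : 4 * (x1 ^ 2 + y1 ^ 2 + z1 ^ 2 + 4 * (s ^ 2 * (g ^ 2 * t ^ 2 + 2))) =
        4 * (2 * (g * x1 * y1 * z1)) := by
      have h3 : t ^ 2 = 4 * s ^ 2 := by rw [hs]; ring
      linear_combination h + (-4 * (g ^ 2 * t ^ 2 + 2)) * h3
    omega
  rcases Int.emod_two_eq_zero_or_one x1 with a | a
  · obtain ⟨x2, hx2⟩ := Int.dvd_of_emod_eq_zero a
    exact n1 ⟨x2, by rw [hx1, hx2]; ring⟩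
  · obtain ⟨a', ha'⟩ := sq_mod8 a
    rcases Int.emod_two_eq_zero_or_one y1 with b | b
    · obtain ⟨y2, hy2⟩ := Int.dvd_of_emod_eq_zero b
      have hb' : y1 ^ 2 = 4 * y2 ^ 2 := by rw [hy2]; ring
      have hr : g * x1 * y1 * z1 = 2 * (g * x1 * y2 * z1) := by rw [hy2]; ring
      rcases Int.emod_two_eq_zero_or_one z1 with c | c
      · obtain ⟨z2, hz2⟩ := Int.dvd_of_emod_eq_zero c
        have hc' : z1 ^ 2 = 4 * z2 ^ 2 := by rw [hz2]; ring
        omega
      · obtain ⟨c', hc'⟩ := sq_mod8 c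
        omega
    · obtain ⟨b', hb'⟩ := sq_mod8 b
      rcases Int.emod_two_eq_zero_or_one z1 with c | c
      · obtain ⟨z2, hz2⟩ := Int.dvd_of_emod_eq_zero c
        have hc' : z1 ^ 2 = 4 * z2 ^ 2 := by rw [hz2]; ring
        have hr : g * x1 * y1 * z1 = 2 * (g * x1 * y1 * z2) := by rw [hz2]; ring
        omega
      · obtain ⟨c', hc'⟩ := sq_mod8 c
        have hr := odd_mul (odd_mul (odd_mul hgo a) b) c
        omega

/-- Vieta move on the even entry -/
theorem vieta_even {g t x y z : ℤ} (hgo : g % 2 = 1)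
    (hx : 0 < x) (hy : 0 < y) (hz : 0 < z) (hxo : x % 2 = 1) (hyo : y % 2 = 1) (hze : z % 2 = 0)
    (h : Sol g t x y z) : ∃ z' : ℤ, Odd3 g t x y z' := by
  refine ⟨g * x * y - z, hx, hy, ?_, hxo, hyo, ?_, ?_⟩
  · unfold Sol at h
    have h1 : (g * x * y - z) * z = x ^ 2 + y ^ 2 + 4 * t ^ 2 * (g ^ 2 * t ^ 2 + 2) := by
      linear_combination -h
    have h2 : 0 < (g * x * y - z) * z := by rw [h1]; positivity
    exact (pos_iff_pos_of_mul_pos h2).mpr hz
  · have := odd_mul (odd_mul hgo hxo) hyo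
    omega
  · unfold Sol at h ⊢
    linear_combination h

theorem to_odd3 {g t x y z : ℤ} (ht : t % 2 = 0) (ht0 : 0 < t) (hg : 0 < g) (hgo : g % 2 = 1)
    (h : Sol g t x y z) : ∃ x' y' z' : ℤ, Odd3 g t x' y' z' := by
  have hxyz : 0 < x * y * z := by
    have h1 : 0 < g * (x * y * z) := by
      unfold Sol at h
      have : g * (x * y * z) = x ^ 2 + y ^ 2 + z ^ 2 + 4 * t ^ 2 * (g ^ 2 * t ^ 2 + 2) := by
        linear_combination -h
      rw [this]; positivity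
    exact (pos_iff_pos_of_mul_pos h1).mp hg
  have hx0 : x ≠ 0 := by rintro rfl; simp at hxyz
  have hy0 : y ≠ 0 := by rintro rfl; simp at hxyz
  have hz0 : z ≠ 0 := by rintro rfl; simp at hxyz
  -- positive
  have habs : |x| * |y| * |z| = x * y * z := by
    rw [← abs_mul, ← abs_mul, abs_of_pos hxyz]
  have h' : Sol g t |x| |y| |z| := by
    unfold Sol at h ⊢
    have h1 : g * |x| * |y| * |z| = g * x * y * z := by
      linear_combination g * habs
    rw [h1, sq_abs, sq_abs, sq_abs]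
    exact h
  have hx1 : 0 < |x| := abs_pos.mpr hx0
  have hy1 : 0 < |y| := abs_pos.mpr hy0
  have hz1 : 0 < |z| := abs_pos.mpr hz0
  generalize |x| = X at *
  generalize |y| = Y at *
  generalize |z| = Z at *
  -- one odd is impossible
  have one : ∀ X Y Z : ℤ, Sol g t X Y Z → X % 2 = 1 → Y % 2 = 0 → Z % 2 = 0 → False := by
    intro X Y Z h a b c
    obtain ⟨s, hs⟩ := sq_mod8 a
    obtain ⟨Y', hY⟩ := Int.dvd_of_emod_eq_zero b
    obtain ⟨Z', hZ⟩ := Int.dvd_of_emod_eq_zero c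
    unfold Sol at h
    have h1 : X ^ 2 = 2 * (g * X * Y' * Z - 2 * Y' ^ 2 - 2 * Z' ^ 2 -
        2 * (t ^ 2 * (g ^ 2 * t ^ 2 + 2))) := by
      have h2 : Y ^ 2 = 4 * Y' ^ 2 := by rw [hY]; ring
      have h3 : Z ^ 2 = 4 * Z' ^ 2 := by rw [hZ]; ring
      have h4 : g * X * Y * Z = 2 * (g * X * Y' * Z) := by rw [hY]; ring
      linear_combination h - h2 - h3 + h4
    omega
  rcases Int.emod_two_eq_zero_or_one X with a | a <;>
  rcases Int.emod_two_eq_zero_or_one Y with b | b <;>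
  rcases Int.emod_two_eq_zero_or_one Z with c | c
  · exact (not_all_even ht hgo hx1 hy1 hz1 h' a b c).elim
  · exact (one Z X Y h'.rot.rot c a b).elim
  · exact (one Y Z X h'.rot b c a).elim
  · obtain ⟨w, hw⟩ := vieta_even hgo hy1 hz1 hx1 b c a h'.rot
    exact ⟨_, _, _, hw⟩
  · exact (one X Y Z h' a b c).elim
  · obtain ⟨w, hw⟩ := vieta_even hgo hz1 hx1 hy1 c a b h'.rot.rot
    exact ⟨_, _, _, hw⟩
  · obtain ⟨w, hw⟩ := vieta_even hgo hx1 hy1 hz1 a b c h'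
    exact ⟨_, _, _, hw⟩
  · exact ⟨X, Y, Z, hx1, hy1, hz1, a, b, c, h'⟩

/-- `t = 2 ℓ`, `g = ± 1` modulo `8` : no solutions -/
theorem no_solution_ell {g : ℤ} (hg0 : 0 < g) (hg : g % 8 = 1 ∨ g % 8 = 7) {l : ℕ}
    (hl : l.Prime) (hl8 : l % 8 = 1 ∨ l % 8 = 7) (x y z : ℤ) : ¬ Sol g (2 * l) x y z := by
  intro h
  have hl0 : (0 : ℤ) < l := by exact_mod_cast hl.pos
  obtain ⟨x', y', z', d⟩ := to_odd3 (by omega) (by omega) hg0 (by omega) h
  have := core_ell' hl hl8 hg0 (by omega) d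
  omega

/-- `t = 2 ^ j` : no solutions -/
theorem no_solution_pow {g : ℤ} (hg0 : 0 < g) (hg : g % 8 = 1 ∨ g % 8 = 7) {j : ℕ}
    (hj : 1 ≤ j) (x y z : ℤ) : ¬ Sol g (2 ^ j) x y z := by
  intro h
  have ht : ((2 : ℤ) ^ j) % 2 = 0 := by
    obtain ⟨i, rfl⟩ : ∃ i, j = i + 1 := ⟨j - 1, by omega⟩
    rw [pow_succ]; omega
  have ht0 : (0 : ℤ) < 2 ^ j := by positivity
  have hgo : g % 2 = 1 := by omega
  have hc : ∀ a : ℤ, a % 2 = 1 → IsCoprime a (2 * 2 ^ j) := by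
    intro a ha
    have h1 : (2 * 2 ^ j : ℤ) = 2 ^ (j + 1) := by ring
    rw [h1]
    exact ((cop_two ha).pow_left).symm
  obtain ⟨x, y, z, d⟩ := to_odd3 ht ht0 hg0 hgo h
  have : g % 8 = 3 ∨ g % 8 = 5 := by
    by_cases h1 : y = z
    · by_cases h2 : x = y
      · subst h1 h2
        obtain ⟨x1, y1, d', h⟩ := vieta_eq ht0 hg0 hgo d
        exact core_ne ht ht0 hg0 hgo d' (hc _ d'.hxo) (by omega)
      · have d' := d.rot.rot
        exact core_ne ht ht0 hg0 hgo d' (hc _ d'.hxo) h2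
    · exact core_ne ht ht0 hg0 hgo d (hc _ d.hxo) h1
  omega

end Pool.Agent.HFO
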