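import Pool.Agent.HFO.First

/-!
# HFO/Second : the first formula, continued
-/

set_option autoImplicit false

namespace Pool.Agent.HFO

namespace Dat

variable {g t x Y Z h q A B u P f w u1 A1 G : ℤ} (d : Dat g t x Y Z h q A B u P f w u1 A1 G)

include d

theorem A1o : A1 % 2 = 1 := by
  have h1 := d.Ao
  rcases Int.emod_two_eq_zero_or_one A1 with h | h
  · exfalso
    obtain ⟨v, hv⟩ := Int.dvd_of_emod_eq_zero h
    have : A = 2 * (w * v) := by rw [d.hwA, hv]; ring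
    omega
  · exact h

theorem G4 : G % 4 = 1 := by
  obtain ⟨s, hs⟩ := d.G8
  have := d.YZ4
  omega

/-- primes of `G`: units -/
theorem G_units {p : ℕ} (hp : p.Prime) (hd : (p : ℤ) ∣ G) :
    ¬ (p : ℤ) ∣ u1 ∧ ¬ (p : ℤ) ∣ A1 := by
  have hpr : Prime (p : ℤ) := Nat.prime_iff_prime_int.mp hp
  have ho := odd_of_dvd hp (by have := d.G4; omega) hd
  have hp2 := not_dvd_two hp ho
  have key : ¬ ((p : ℤ) ∣ u1 ∧ (p : ℤ) ∣ A1) := by
    rintro ⟨h1, h2⟩
    exact hpr.not_isUnit (d.hc.isUnit_of_dvd' h1 h2)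
  constructor
  · intro h1
    have h2 : (p : ℤ) ∣ A1 ^ 2 * (Y * Z) := by
      have : A1 ^ 2 * (Y * Z) = G + u1 * (4 * t ^ 2 * u1) := by rw [d.hG]; ring
      rw [this]
      exact dvd_add hd (dvd_mul_of_dvd_left h1 _)
    have hpu : (p : ℤ) ∣ Y - Z := by
      rw [← d.hu, d.hwu]; exact dvd_mul_of_dvd_right h1 _
    rcases hpr.dvd_or_dvd h2 with h3 | h3
    · exact key ⟨h1, hpr.dvd_of_dvd_pow h3⟩
    · rcases hpr.dvd_or_dvd h3 with h4 | h4
      · apply hpr.not_isUnit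
        apply d.hYZ.isUnit_of_dvd' h4
        have : Z = Y - (Y - Z) := by ring
        rw [this]
        exact dvd_sub h4 hpu
      · apply hpr.not_isUnit
        apply d.hYZ.isUnit_of_dvd' _ h4
        have : Y = (Y - Z) + Z := by ring
        rw [this]
        exact dvd_add hpu h4
  · intro h1
    have h2 : (p : ℤ) ∣ (2 * t * u1) ^ 2 := by
      have : (2 * t * u1) ^ 2 = A1 * (A1 * (Y * Z)) - G := by rw [d.hG]; ring
      rw [this]
      exact dvd_sub (dvd_mul_of_dvd_left h1 _) hd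
    rcases hpr.dvd_or_dvd (hpr.dvd_of_dvd_pow h2) with h3 | h3
    · apply hpr.not_isUnit
      apply d.hxt.isUnit_of_dvd' _ h3
      have hpA : (p : ℤ) ∣ A := by rw [d.hwA]; exact dvd_mul_of_dvd_right h1 _
      have : x = A - 2 * t * (g * t) := by rw [d.hA]; ring
      rw [this]
      exact dvd_sub hpA (dvd_mul_of_dvd_left h3 _)
    · exact key ⟨h3, h1⟩

theorem F3 {p : ℕ} (hp : p.Prime) (hd : (p : ℤ) ∣ G) :
    (if (p : ℤ) ∣ w then JJ (t * Y) p else JJ (2 * (u * A)) p) = JJ (2 * (u1 * A1)) p := by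
  have hpr : Prime (p : ℤ) := Nat.prime_iff_prime_int.mp hp
  have ho := odd_of_dvd hp (by have := d.G4; omega) hd
  have hp2 := not_dvd_two hp ho
  obtain ⟨hu1, hA1⟩ := d.G_units hp hd
  by_cases hpw : (p : ℤ) ∣ w
  · rw [if_pos hpw]
    obtain ⟨h4, hpY, hpt, hpu, hpA⟩ := d.F1 hp hpw
    have hn1 : JJ (-1) p = 1 := by
      apply JJ_negone_one
      · exact_mod_cast hp.pos
      · omega
    have hsq : (p : ℤ) ∣ (A1 * Y - 2 * t * u1) * (A1 * Y + 2 * t * u1) := by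
      have : (A1 * Y - 2 * t * u1) * (A1 * Y + 2 * t * u1) = G + A1 ^ 2 * Y * u := by
        rw [d.hG, d.hu]; ring
      rw [this]
      exact dvd_add hd (dvd_mul_of_dvd_right hpu _)
    have ha : ¬ (p : ℤ) ∣ t * Y := by
      intro h
      rcases hpr.dvd_or_dvd h with h | h
      · exact hpt h
      · exact hpY h
    have hb : ¬ (p : ℤ) ∣ 2 * (u1 * A1) := by
      intro h
      rcases hpr.dvd_or_dvd h with h | h
      · exact hp2 h
      · rcases hpr.dvd_or_dvd h with h | h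
        · exact hu1 h
        · exact hA1 h
    rcases hpr.dvd_or_dvd hsq with h1 | h1
    · apply JJp_eq_of_sq hp (r := 2 * t * u1) _ ha hb
      have : t * Y * (2 * (u1 * A1)) - (2 * t * u1) ^ 2 =
          2 * t * u1 * (A1 * Y - 2 * t * u1) := by ring
      rw [this]
      exact dvd_mul_of_dvd_right h1 _
    · have hb' : ¬ (p : ℤ) ∣ -1 * (2 * (u1 * A1)) := by
        intro h
        apply hb
        have : 2 * (u1 * A1) = -(-1 * (2 * (u1 * A1))) := by ring
        rw [this]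
        exact h.neg_right
      have h2 : JJ (t * Y) p = JJ (-1 * (2 * (u1 * A1))) p := by
        apply JJp_eq_of_sq hp (r := 2 * t * u1) _ ha hb'
        have : t * Y * (-1 * (2 * (u1 * A1))) - (2 * t * u1) ^ 2 =
            -(2 * t * u1 * (A1 * Y + 2 * t * u1)) := by ring
        rw [this]
        exact (dvd_mul_of_dvd_right h1 _).neg_right
      rw [h2, JJ_mul_left, hn1, one_mul]
  · rw [if_neg hpw]
    have : 2 * (u * A) = w ^ 2 * (2 * (u1 * A1)) := by
      rw [d.hwu, d.hwA]; ring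
    rw [this, JJ_sq_mul (cop_of_not_dvd hp hpw)]

/-- primes of `f` -/
theorem f_units {p : ℕ} (hp : p.Prime) (hd : (p : ℤ) ∣ f) :
    p % 2 = 1 ∧ ¬ (p : ℤ) ∣ Y ∧ ¬ (p : ℤ) ∣ t ∧
      (¬ (p : ℤ) ∣ w → ¬ (p : ℤ) ∣ u ∧ ¬ (p : ℤ) ∣ A) := by
  have hpr : Prime (p : ℤ) := Nat.prime_iff_prime_int.mp hp
  obtain ⟨s, hs⟩ := d.fo
  have ho := odd_of_dvd hp (by omega) hd
  have hp2 := not_dvd_two hp ho
  have hYZ : ∀ (h1 : (p : ℤ) ∣ Y) (h2 : (p : ℤ) ∣ Z), False := fun h1 h2 =>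
    hpr.not_isUnit (d.hYZ.isUnit_of_dvd' h1 h2)
  have hpY : ¬ (p : ℤ) ∣ Y := by
    intro h1
    apply hYZ h1
    have h2 : (p : ℤ) ∣ Z ^ 2 := by
      have : Z ^ 2 = Y * (g * x * Z - Y) - f := by rw [d.hf]; ring
      rw [this]
      exact dvd_sub (dvd_mul_of_dvd_left h1 _) hd
    exact hpr.dvd_of_dvd_pow h2
  have hpZ : ¬ (p : ℤ) ∣ Z := by
    intro h1
    refine hYZ ?_ h1
    have h2 : (p : ℤ) ∣ Y ^ 2 := by
      have : Y ^ 2 = Z * (g * x * Y - Z) - f := by rw [d.hf]; ring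
      rw [this]
      exact dvd_sub (dvd_mul_of_dvd_left h1 _) hd
    exact hpr.dvd_of_dvd_pow h2
  have hpt : ¬ (p : ℤ) ∣ t := by
    intro h1
    apply hpr.not_isUnit
    apply d.hxt.isUnit_of_dvd' _ (dvd_mul_of_dvd_right h1 _)
    have h4 : (p : ℤ) ∣ x ^ 2 := by
      have : x ^ 2 = h ^ 2 * f - t * (4 * t * (g ^ 2 * t ^ 2 + 2)) := by
        linear_combination -d.f2
      rw [this]
      exact dvd_sub (dvd_mul_of_dvd_right hd _) (dvd_mul_of_dvd_left h1 _)
    exact hpr.dvd_of_dvd_pow h4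
  refine ⟨ho, hpY, hpt, ?_⟩
  intro hpw
  have hnot : ¬ ((p : ℤ) ∣ u ∧ (p : ℤ) ∣ A) := by
    rintro ⟨h1, h2⟩
    rw [d.hwu] at h1
    rw [d.hwA] at h2
    rcases hpr.dvd_or_dvd h1 with h3 | h3
    · exact hpw h3
    · rcases hpr.dvd_or_dvd h2 with h4 | h4
      · exact hpw h4
      · exact hpr.not_isUnit (d.hc.isUnit_of_dvd' h3 h4)
  have huA : (p : ℤ) ∣ q → False := by
    intro h1
    apply hnot
    constructor
    · have h2 : (p : ℤ) ∣ u ^ 2 := by
        have : u ^ 2 = q * (Y * Z) - f := by rw [d.f1]; ring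
        rw [this]
        exact dvd_sub (dvd_mul_of_dvd_left h1 _) hd
      exact hpr.dvd_of_dvd_pow h2
    · have h2 : (p : ℤ) ∣ A ^ 2 := by
        have : A ^ 2 = h ^ 2 * f + q * (4 * t ^ 2) := by rw [d.f3]; ring
        rw [this]
        exact dvd_add (dvd_mul_of_dvd_right hd _) (dvd_mul_of_dvd_left h1 _)
      exact hpr.dvd_of_dvd_pow h2
  constructor
  · intro h1
    have h2 : (p : ℤ) ∣ q * (Y * Z) := by
      have : q * (Y * Z) = f + u * u := by rw [d.f1]; ring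
      rw [this]
      exact dvd_add hd (dvd_mul_of_dvd_left h1 _)
    rcases hpr.dvd_or_dvd h2 with h3 | h3
    · exact huA h3
    · rcases hpr.dvd_or_dvd h3 with h4 | h4
      · exact hpY h4
      · exact hpZ h4
  · intro h1
    have h2 : (p : ℤ) ∣ (2 * t) ^ 2 * q := by
      have : (2 * t) ^ 2 * q = A * A - h ^ 2 * f := by rw [d.f3]; ring
      rw [this]
      exact dvd_sub (dvd_mul_of_dvd_left h1 _) (dvd_mul_of_dvd_right hd _)
    rcases hpr.dvd_or_dvd h2 with h3 | h3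
    · rcases hpr.dvd_or_dvd (hpr.dvd_of_dvd_pow h3) with h4 | h4
      · exact hp2 h4
      · exact hpt h4
    · exact huA h3

theorem F4 {c0 d0 f0 e1 : ℤ} (hfe : f = e1 ^ 2 * f0) (hf0 : f0 = c0 ^ 2 + d0 ^ 2)
    (hcd : IsCoprime c0 d0) {p : ℕ} (hp : p.Prime) (hd : (p : ℤ) ∣ f0) :
    (if (p : ℤ) ∣ w then JJ (t * Y) p else JJ (2 * (u * A)) p) =
      JJ (2 * Y * ((B * d0 - A * c0) * d0)) p := by
  have hpr : Prime (p : ℤ) := Nat.prime_iff_prime_int.mp hp
  have hdf : (p : ℤ) ∣ f := by rw [hfe]; exact dvd_mul_of_dvd_right hd _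
  obtain ⟨ho, hpY, hpt, hun⟩ := d.f_units hp hdf
  have hp2 := not_dvd_two hp ho
  have hd' : (p : ℤ) ∣ c0 ^ 2 + d0 ^ 2 := by rw [← hf0]; exact hd
  have hpd : ¬ (p : ℤ) ∣ d0 := by
    intro h1
    apply hpr.not_isUnit
    apply hcd.isUnit_of_dvd' _ h1
    have h2 : (p : ℤ) ∣ c0 ^ 2 := by
      have : c0 ^ 2 = (c0 ^ 2 + d0 ^ 2) - d0 * d0 := by ring
      rw [this]
      exact dvd_sub hd' (dvd_mul_of_dvd_left h1 _)
    exact hpr.dvd_of_dvd_pow h2
  have hpc : ¬ (p : ℤ) ∣ c0 := by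
    intro h1
    apply hpd
    have h2 : (p : ℤ) ∣ d0 ^ 2 := by
      have : d0 ^ 2 = (c0 ^ 2 + d0 ^ 2) - c0 * c0 := by ring
      rw [this]
      exact dvd_sub hd' (dvd_mul_of_dvd_left h1 _)
    exact hpr.dvd_of_dvd_pow h2
  have h4 : p % 4 = 1 := four_of_sq hp ho hd' hpd
  have hn1 : JJ (-1) p = 1 := by
    apply JJ_negone_one
    · exact_mod_cast hp.pos
    · omega
  have h16 : ¬ (p : ℤ) ∣ 4 * t * d0 := by
    intro h1
    rcases hpr.dvd_or_dvd h1 with h2 | h2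
    · rcases hpr.dvd_or_dvd h2 with h3 | h3
      · have : (p : ℤ) ∣ 2 ^ 2 := by norm_num; exact h3
        exact hp2 (hpr.dvd_of_dvd_pow this)
      · exact hpt h3
    · exact hpd h2
  -- the product of the two conjugate values
  have hWW : (p : ℤ) ∣ (B * d0 - A * c0) * (B * d0 + A * c0) - (-1) * (4 * t * d0) ^ 2 := by
    have h1 := d.f8
    have : (B * d0 - A * c0) * (B * d0 + A * c0) - (-1) * (4 * t * d0) ^ 2 =
        f * (2 * h ^ 2 * d0 ^ 2) - A ^ 2 * (c0 ^ 2 + d0 ^ 2) := by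
      linear_combination d0 ^ 2 * h1
    rw [this]
    exact dvd_sub (dvd_mul_of_dvd_left hdf _) (dvd_mul_of_dvd_right hd' _)
  have hWn : ¬ (p : ℤ) ∣ (B * d0 - A * c0) * (B * d0 + A * c0) := by
    intro h1
    have h2 := dvd_sub h1 hWW
    have h3 : (B * d0 - A * c0) * (B * d0 + A * c0) -
        ((B * d0 - A * c0) * (B * d0 + A * c0) - (-1) * (4 * t * d0) ^ 2) =
        -(4 * t * d0) ^ 2 := by ring
    rw [h3] at h2
    exact h16 (hpr.dvd_of_dvd_pow ((dvd_neg).mp h2))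
  have hW : ¬ (p : ℤ) ∣ (B * d0 - A * c0) := fun h => hWn (dvd_mul_of_dvd_left h _)
  have hW' : ¬ (p : ℤ) ∣ (B * d0 + A * c0) := fun h => hWn (dvd_mul_of_dvd_right h _)
  have hJW : JJ (B * d0 - A * c0) p = JJ (B * d0 + A * c0) p := by
    have h1 : JJ ((B * d0 - A * c0) * (B * d0 + A * c0)) p = 1 := by
      rw [JJ_congr hWW, JJ_mul_left, hn1, one_mul]
      exact JJ_sq (cop_of_not_dvd hp h16)
    rw [JJ_mul_left] at h1
    rcases JJp_pm hp hW with ha | ha <;> rcases JJp_pm hp hW' with hb | hb <;>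
      rw [ha, hb] at h1 ⊢ <;> norm_num at h1
  by_cases hpw : (p : ℤ) ∣ w
  · rw [if_pos hpw]
    obtain ⟨_, _, _, hpu, hpA⟩ := d.F1 hp hpw
    have hpq : (p : ℤ) ∣ q := by
      have h2 : (p : ℤ) ∣ (2 * t) ^ 2 * q := by
        have : (2 * t) ^ 2 * q = A * A - h ^ 2 * f := by rw [d.f3]; ring
        rw [this]
        exact dvd_sub (dvd_mul_of_dvd_left hpA _) (dvd_mul_of_dvd_right hdf _)
      rcases hpr.dvd_or_dvd h2 with h3 | h3
      · rcases hpr.dvd_or_dvd (hpr.dvd_of_dvd_pow h3) with h4 | h4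
        · exact absurd h4 hp2
        · exact absurd h4 hpt
      · exact h3
    have hgt : (p : ℤ) ∣ g ^ 2 * t ^ 2 + 1 := by
      have h1 : (p : ℤ) ∣ 2 * (g ^ 2 * t ^ 2 + 1) := by
        have : 2 * (g ^ 2 * t ^ 2 + 1) = A * g - q := by rw [d.hA, d.hq]; ring
        rw [this]
        exact dvd_sub (dvd_mul_of_dvd_left hpA _) hpq
      rcases hpr.dvd_or_dvd h1 with h2 | h2
      · exact absurd h2 hp2
      · exact h2
    have ha : ¬ (p : ℤ) ∣ t * Y := by
      intro h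
      rcases hpr.dvd_or_dvd h with h | h
      · exact hpt h
      · exact hpY h
    have hb : ¬ (p : ℤ) ∣ -1 * (2 * Y * ((B * d0 - A * c0) * d0)) := by
      intro h
      have h1 : (p : ℤ) ∣ 2 * Y * ((B * d0 - A * c0) * d0) := by
        have : 2 * Y * ((B * d0 - A * c0) * d0) =
          -(-1 * (2 * Y * ((B * d0 - A * c0) * d0))) := by ring
        rw [this]
        exact h.neg_right
      rcases hpr.dvd_or_dvd h1 with h | h
      · rcases hpr.dvd_or_dvd h with h | h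
        · exact hp2 h
        · exact hpY h
      · rcases hpr.dvd_or_dvd h with h | h
        · exact hW h
        · exact hpd h
    have h2 : JJ (t * Y) p = JJ (-1 * (2 * Y * ((B * d0 - A * c0) * d0))) p := by
      apply JJp_eq_of_sq hp (r := 2 * t * Y * d0 * (g * t + 1)) _ ha hb
      have hBA : B = A - 4 * g * t ^ 2 := by rw [d.hB, d.hA]; ring
      have : t * Y * (-1 * (2 * Y * ((B * d0 - A * c0) * d0))) -
          (2 * t * Y * d0 * (g * t + 1)) ^ 2 =
          -(4 * t ^ 2 * Y ^ 2 * d0 ^ 2 * (g ^ 2 * t ^ 2 + 1)) -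
            A * (2 * t * Y ^ 2 * d0 * (d0 - c0)) := by
        rw [hBA]; ring
      rw [this]
      exact dvd_sub (dvd_mul_of_dvd_right hgt _).neg_right (dvd_mul_of_dvd_left hpA _)
    rw [h2, JJ_mul_left (-1), hn1, one_mul]
  · rw [if_neg hpw]
    obtain ⟨hpu, hpA⟩ := hun hpw
    have ha : ¬ (p : ℤ) ∣ 2 * (u * A) := by
      intro h
      rcases hpr.dvd_or_dvd h with h | h
      · exact hp2 h
      · rcases hpr.dvd_or_dvd h with h | h
        · exact hpu h
        · exact hpA h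
    have hYY : ∀ V : ℤ, ¬ (p : ℤ) ∣ V → ¬ (p : ℤ) ∣ 2 * Y * (V * d0) := by
      intro V hV h1
      rcases hpr.dvd_or_dvd h1 with h | h
      · rcases hpr.dvd_or_dvd h with h | h
        · exact hp2 h
        · exact hpY h
      · rcases hpr.dvd_or_dvd h with h | h
        · exact hV h
        · exact hpd h
    have hsplit : (p : ℤ) ∣ (u * B * d0 - (Y + Z) * A * c0) * (u * B * d0 + (Y + Z) * A * c0) := by
      have h7 := d.f7
      have : (u * B * d0 - (Y + Z) * A * c0) * (u * B * d0 + (Y + Z) * A * c0) =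
          f * ((h ^ 2 * (u ^ 2 + (Y + Z) ^ 2) + 16 * t ^ 2) * d0 ^ 2) -
            (c0 ^ 2 + d0 ^ 2) * ((Y + Z) * A) ^ 2 := by
        linear_combination d0 ^ 2 * h7
      rw [this]
      exact dvd_sub (dvd_mul_of_dvd_left hdf _) (dvd_mul_of_dvd_left hd' _)
    have hY2 : Y + Z = 2 * Y - u := by rw [d.hu]; ring
    rcases hpr.dvd_or_dvd hsplit with h1 | h1
    · -- `u B d0 = v A c0`, the conjugate value
      have h2 : JJ (2 * (u * A)) p = JJ (2 * Y * ((B * d0 + A * c0) * d0)) p := by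
        apply JJp_eq_of_sq hp (r := 2 * A * Y * (c0 + d0)) _ ha (hYY _ hW')
        have : 2 * (u * A) * (2 * Y * ((B * d0 + A * c0) * d0)) -
            (2 * A * Y * (c0 + d0)) ^ 2 =
            (u * B * d0 - (Y + Z) * A * c0) * (4 * A * Y * d0) -
              (c0 ^ 2 + d0 ^ 2) * (2 * A * Y) ^ 2 := by
          rw [hY2]; ring
        rw [this]
        exact dvd_sub (dvd_mul_of_dvd_left h1 _) (dvd_mul_of_dvd_left hd' _)
      rw [h2, JJ_mul_left, JJ_mul_left (B * d0 + A * c0), ← hJW, ← JJ_mul_left, ← JJ_mul_left]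
    · have h2 : JJ (2 * (u * A)) p = JJ (2 * Y * ((B * d0 - A * c0) * d0)) p := by
        apply JJp_eq_of_sq hp (r := 2 * A * Y * (c0 - d0)) _ ha (hYY _ hW)
        have : 2 * (u * A) * (2 * Y * ((B * d0 - A * c0) * d0)) -
            (2 * A * Y * (c0 - d0)) ^ 2 =
            (u * B * d0 + (Y + Z) * A * c0) * (4 * A * Y * d0) -
              (c0 ^ 2 + d0 ^ 2) * (2 * A * Y) ^ 2 := by
          rw [hY2]; ring
        rw [this]
        exact dvd_sub (dvd_mul_of_dvd_left h1 _) (dvd_mul_of_dvd_left hd' _)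
      exact h2

end Dat

end Pool.Agent.HFO
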