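import Pool.Agent.HFO.Second

/-!
# HFO/Third : the first formula, assembled
-/

set_option autoImplicit false

namespace Pool.Agent.HFO

theorem two_pow_odd {a : ℤ} (ha : 0 < a) : ∃ (k : ℕ) (b : ℤ), a = 2 ^ k * b ∧ b % 2 = 1 := by
  obtain ⟨n, rfl⟩ := Int.eq_ofNat_of_zero_le ha.le
  have hn : n ≠ 0 := by
    rintro rfl
    simp at ha
  obtain ⟨k, m, hm, h⟩ := Nat.exists_eq_two_pow_mul_odd hn
  refine ⟨k, m, ?_, ?_⟩
  · rw [h]; push_cast; rfl
  · have := Nat.odd_iff.mp hm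
    omega

theorem cop_twoT {a : ℤ} (h : a % 2 = 1) : IsCoprime 2 a := ⟨-(a / 2), 1, by omega⟩

namespace Dat

variable {g t x Y Z h q A B u P f w u1 A1 G : ℤ} (d : Dat g t x Y Z h q A B u P f w u1 A1 G)

include d

theorem copA : IsCoprime A (2 * t) := by
  have h1 : A = x + (2 * t) * (g * t) := by rw [d.hA]; ring
  rw [h1]
  exact (IsCoprime.add_mul_left_left_iff).mpr d.hxt

theorem copYu : IsCoprime Y u := by
  have h1 : u = -Z + Y * 1 := by rw [d.hu]; ring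
  rw [h1]
  exact (IsCoprime.add_mul_left_right_iff).mpr d.hYZ.neg_right

theorem w4 : w % 4 = 1 := mod_four_one d.hw d.wo fun _ hp hd => (d.F1 hp hd).1

theorem A_pos : 0 < A := by
  rw [d.hA]
  have := d.hx
  have := d.hg
  positivity

theorem u_pos : 0 < u := by
  have h1 := d.hu
  have h2 := d.hlt
  omega

theorem u1_pos : 0 < u1 :=
  (pos_iff_pos_of_mul_pos (by rw [← d.hwu]; exact d.u_pos : 0 < w * u1)).mp d.hw

theorem A1_pos : 0 < A1 :=
  (pos_iff_pos_of_mul_pos (by rw [← d.hwA]; exact d.A_pos : 0 < w * A1)).mp d.hw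

theorem JA1 : JJ A1 G = JJ (-1) x := by
  rw [JJ_recip d.A1o d.G_pos d.G4]
  have h1 : JJ G A1 = JJ ((2 * t * u1) ^ 2 * (-1)) A1 := by
    apply JJ_congr
    rw [d.hG]
    exact ⟨A1 * (Y * Z), by ring⟩
  have hc1 : IsCoprime (2 * t) A1 := by
    have h2 : IsCoprime (w * A1) (2 * t) := by rw [← d.hwA]; exact d.copA
    exact h2.of_mul_left_right.symm
  rw [h1, JJ_sq_mul (IsCoprime.mul_left hc1 d.hc)]
  have h3 : JJ (-1) A = JJ (-1) w * JJ (-1) A1 := by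
    rw [d.hwA]; exact JJ_mul_right _ d.hw.ne' d.A1_pos.ne'
  rw [JJ_negone_one d.hw d.w4, one_mul] at h3
  rw [← h3, JJ_negone d.A_pos d.Ao, JJ_negone d.hx d.hxo]
  obtain ⟨t', ht'⟩ := Int.dvd_of_emod_eq_zero d.ht
  have h4 : A = x + 4 * (2 * g * t' ^ 2) := by rw [d.hA, ht']; ring
  by_cases h5 : x % 4 = 1
  · rw [if_pos h5, if_pos (by omega)]
  · rw [if_neg h5, if_neg (by omega)]

theorem J2G : JJ 2 G = JJ 2 (Y * Z) := by
  obtain ⟨s, hs⟩ := d.G8
  have h1 := d.YZ4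
  rw [JJ_two' (n := G) (by omega), JJ_two' (n := Y * Z) (by omega)]
  by_cases h5 : (Y * Z) % 8 = 1 ∨ (Y * Z) % 8 = 7
  · rw [if_pos h5, if_pos (by omega)]
  · rw [if_neg h5, if_neg (by omega)]

theorem Ju1 : JJ u1 G = 1 := by
  have hGo : G % 2 = 1 := by have := d.G4; omega
  obtain ⟨u3, hu3⟩ : (2 : ℤ) ^ 2 ∣ u1 := by
    have h1 : IsCoprime ((2 : ℤ) ^ 2) w := (cop_twoT d.wo).pow_left
    apply h1.dvd_of_dvd_mul_left
    rw [← d.hwu]
    norm_num
    exact Int.dvd_of_emod_eq_zero d.h4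
  have hu30 : 0 < u3 := by
    have := d.u1_pos
    rw [hu3] at this
    omega
  obtain ⟨k, u2, hu2, hodd⟩ := two_pow_odd hu30
  have hu1' : u1 = 2 ^ 2 * (2 ^ k * u2) := by rw [hu3, hu2]
  have h2k : JJ (2 ^ k) G = 1 := by
    rcases Nat.eq_zero_or_pos k with rfl | hk
    · rw [pow_zero, JJ_one_left]
    · have h8 : JJ 2 G = 1 := by
        apply JJ_two_one d.G_pos
        obtain ⟨s, hs⟩ := d.G8
        obtain ⟨j, rfl⟩ : ∃ j, k = j + 1 := ⟨k - 1, by omega⟩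
        obtain ⟨b, hb⟩ := sq_mod8 d.hYo
        have h9 : Y * Z = 8 * (b - Y * w * 2 ^ j * u2) + 1 := by
          have h10 : Z = Y - w * u1 := by rw [← d.hwu, d.hu]; ring
          rw [h10, hu1', pow_succ]
          linear_combination hb
        omega
      unfold JJ at h8 ⊢
      rw [jacobiSym.pow_left, h8, one_pow]
  have hu2u : u2 ∣ u1 := ⟨2 ^ 2 * 2 ^ k, by rw [hu1']; ring⟩
  have hu2u' : u2 ∣ u := by rw [d.hwu]; exact dvd_mul_of_dvd_right hu2u _
  rw [hu1', JJ_sq_mul (cop_twoT hGo), JJ_mul_left, h2k, one_mul, JJ_recip hodd d.G_pos d.G4]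
  have h1 : JJ G u2 = JJ (A1 ^ 2 * (Y * Z)) u2 := by
    apply JJ_congr
    have : G - A1 ^ 2 * (Y * Z) = u1 * (-(4 * t ^ 2 * u1)) := by rw [d.hG]; ring
    rw [this]
    exact dvd_mul_of_dvd_left hu2u _
  have hc1 : IsCoprime A1 u2 := d.hc.symm.of_isCoprime_of_dvd_right hu2u
  have hc2 : IsCoprime Y u2 := d.copYu.of_isCoprime_of_dvd_right hu2u'
  rw [h1, JJ_sq_mul hc1]
  have h3 : JJ (Y * Z) u2 = JJ (Y ^ 2) u2 := by
    apply JJ_congr
    have : Y * Z - Y ^ 2 = -(Y * u) := by rw [d.hu]; ring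
    rw [this]
    exact (dvd_mul_of_dvd_right hu2u' _).neg_right
  rw [h3, JJ_sq hc2]

theorem JhP : JJ h P = 1 := by
  rw [JJ_recip d.hho d.P_pos d.P4]
  have h1 : JJ P h = JJ ((2 * t) ^ 2) h := by
    apply JJ_congr
    rw [d.hP]
    exact ⟨h * (Y * Z), by ring⟩
  rw [h1, JJ_sq]
  apply cop_of_primes
  intro p hp h2 h3
  have hpr : Prime (p : ℤ) := Nat.prime_iff_prime_int.mp hp
  apply hpr.not_isUnit
  apply d.hxt.isUnit_of_dvd' _ h2
  have h4 : (p : ℤ) ∣ x ^ 2 := by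
    have : x ^ 2 = h * (h * f) - (2 * t) * (2 * t * (g ^ 2 * t ^ 2 + 2)) := by
      linear_combination -d.f2
    rw [this]
    exact dvd_sub (dvd_mul_of_dvd_left h3 _) (dvd_mul_of_dvd_left h2 _)
  exact hpr.dvd_of_dvd_pow h4

/-- THE FIRST FORMULA -/
theorem first {c0 d0 f0 e1 : ℤ} (hfe : f = e1 ^ 2 * f0) (hf0 : f0 = c0 ^ 2 + d0 ^ 2)
    (hcd : IsCoprime c0 d0) :
    JJ ((B * d0 - A * c0) * d0) f0 = JJ 2 (Y * Z) * JJ (-1) x * JJ (-1) Y := by
  obtain ⟨s, hs⟩ := d.fo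
  have hfpos := d.f_pos
  have hf00 : f0 ≠ 0 := by
    rintro rfl
    rw [mul_zero] at hfe
    omega
  have he10 : e1 ≠ 0 := by
    rintro rfl
    have : f = 0 := by rw [hfe]; ring
    omega
  have hf0o : f0 % 2 = 1 := by
    rcases Int.emod_two_eq_zero_or_one f0 with h | h
    · exfalso
      obtain ⟨v, hv⟩ := Int.dvd_of_emod_eq_zero h
      have : f = 2 * (e1 ^ 2 * v) := by rw [hfe, hv]; ring
      omega
    · exact h
  let c : ℕ → ℤ := fun p => if (p : ℤ) ∣ w then JJ (t * Y) p else JJ (2 * (u * A)) p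
  have hcdef : ∀ p : ℕ, c p = if (p : ℤ) ∣ w then JJ (t * Y) p else JJ (2 * (u * A)) p :=
    fun _ => rfl
  have hcw : ∀ p : ℕ, p.Prime → (p : ℤ) ∣ w → c p = 1 ∨ c p = -1 := by
    intro p hp hd
    have hpr : Prime (p : ℤ) := Nat.prime_iff_prime_int.mp hp
    obtain ⟨_, hpY, hpt, _, _⟩ := d.F1 hp hd
    rw [hcdef, if_pos hd]
    apply JJp_pm hp
    intro h
    rcases hpr.dvd_or_dvd h with h | h
    · exact hpt h
    · exact hpY h
  have cw : CC c w * CC c w = 1 := CC_mulself hcw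
  have e0 : CC c f * CC c P = CC c G := by
    rw [← CC_mul c hfpos.ne' d.P_pos.ne', d.f6, pow_two,
      CC_mul c (mul_ne_zero d.hw.ne' d.hw.ne') d.G_pos.ne', CC_mul c d.hw.ne' d.hw.ne', cw, one_mul]
  have eP : CC c P = 1 := by
    rw [← d.JhP]
    exact CC_eq_JJ fun p hp hd => d.F2 hp hd
  have eG : CC c G = JJ 2 (Y * Z) * JJ (-1) x := by
    have h1 : CC c G = JJ (2 * (u1 * A1)) G := CC_eq_JJ fun p hp hd => d.F3 hp hd
    rw [h1, JJ_mul_left, JJ_mul_left, d.Ju1, d.JA1, d.J2G, one_mul]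
  have hfu : ∀ p : ℕ, p.Prime → (p : ℤ) ∣ f → c p = 1 ∨ c p = -1 := by
    intro p hp hd
    by_cases hpw : (p : ℤ) ∣ w
    · exact hcw p hp hpw
    · have hpr : Prime (p : ℤ) := Nat.prime_iff_prime_int.mp hp
      obtain ⟨ho, _, _, hun⟩ := d.f_units hp hd
      obtain ⟨hpu, hpA⟩ := hun hpw
      rw [hcdef, if_neg hpw]
      apply JJp_pm hp
      intro h
      rcases hpr.dvd_or_dvd h with h | h
      · exact not_dvd_two hp ho h
      · rcases hpr.dvd_or_dvd h with h | h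
        · exact hpu h
        · exact hpA h
  have hef : e1 ∣ f := by rw [hfe]; exact ⟨e1 * f0, by ring⟩
  have ee : CC c e1 * CC c e1 = 1 := CC_mulself fun p hp hd => hfu p hp (hd.trans hef)
  have ef : CC c f = CC c f0 := by
    rw [hfe, pow_two, CC_mul c (mul_ne_zero he10 he10) hf00, CC_mul c he10 he10, ee, one_mul]
  have ef0 : CC c f0 = JJ (2 * Y) f0 * JJ ((B * d0 - A * c0) * d0) f0 := by
    rw [← JJ_mul_left]
    exact CC_eq_JJ fun p hp hd => d.F4 hfe hf0 hcd hp hd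
  have hc2Yf : IsCoprime (2 * Y) f := by
    apply cop_of_primes
    intro p hp h1 h2
    have hpr : Prime (p : ℤ) := Nat.prime_iff_prime_int.mp hp
    obtain ⟨ho, hpY, _, _⟩ := d.f_units hp h2
    rcases hpr.dvd_or_dvd h1 with h | h
    · exact not_dvd_two hp ho h
    · exact hpY h
  have eY : JJ (2 * Y) f0 = JJ (-1) Y := by
    have h1 : JJ (2 * Y) f = JJ (2 * Y) f0 := by
      have h2 : JJ (2 * Y) e1 * JJ (2 * Y) e1 = 1 :=
        JJ_mulself (hc2Yf.of_isCoprime_of_dvd_right hef)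
      conv_lhs => rw [hfe]
      rw [pow_two, JJ_mul_right _ (mul_ne_zero he10 he10) hf00, JJ_mul_right _ he10 he10, h2,
        one_mul]
    rw [← h1, JJ_mul_left, JJ_two_one hfpos (by omega), one_mul,
      JJ_recip d.hYo hfpos (by omega)]
    have h3 : JJ f Y = JJ (Z ^ 2 * (-1)) Y := by
      apply JJ_congr
      rw [d.hf]
      exact ⟨g * x * Z - Y, by ring⟩
    rw [h3, JJ_sq_mul d.hYZ.symm]
  have key : JJ (-1) Y * JJ ((B * d0 - A * c0) * d0) f0 = JJ 2 (Y * Z) * JJ (-1) x := by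
    rw [← eY, ← ef0, ← ef, ← eG, ← e0, eP, mul_one]
  have hYY : JJ (-1) Y * JJ (-1) Y = 1 := by
    apply JJ_mulself
    exact isCoprime_one_left.neg_left
  calc JJ ((B * d0 - A * c0) * d0) f0
      = (JJ (-1) Y * JJ (-1) Y) * JJ ((B * d0 - A * c0) * d0) f0 := by rw [hYY, one_mul]
    _ = JJ (-1) Y * (JJ (-1) Y * JJ ((B * d0 - A * c0) * d0) f0) := by ring
    _ = JJ (-1) Y * (JJ 2 (Y * Z) * JJ (-1) x) := by rw [key]
    _ = JJ 2 (Y * Z) * JJ (-1) x * JJ (-1) Y := by ring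

end Dat

end Pool.Agent.HFO
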